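import Pool.Agent.Q1.LK.Aul1

/-!
# Project LQ: job AUL, the conditions at the places above `2` which do not divide `I`
-/

set_option autoImplicit false

namespace Pool.Agent.Q1.LK

open NumberField IsDedekindDomain
open Pool.Agent.Q283.LQ Pool.Agent.Y682 Pool.Agent.Q198.LQ Pool.Agent.Q96.LQ

section

variable {F : Type} [Field F] [NumberField F]

/-- reduction modulo a power of `v` -/
theorem exists_red (v : HeightOneSpectrum (𝓞 F)) (C : ℤ) (k : ℕ) :
    ∃ r : v.adicCompletion F → 𝓞 F ⧸ v.asIdeal ^ k, ∀ ξ ξ' : v.adicCompletion F,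
      vv v ξ ≤ WithZero.exp C → vv v ξ' ≤ WithZero.exp C → r ξ = r ξ' →
      vv v (ξ - ξ') ≤ WithZero.exp (C - k) := by
  obtain ⟨ϖ, hϖ⟩ := v.valuation_exists_uniformizer F
  set P : v.adicCompletion F := algebraMap F (v.adicCompletion F) (ϖ ^ C) with hP
  have hP1 : vv v P = WithZero.exp (-C) := by
    rw [hP, vv_coe, map_zpow₀, hϖ, ← WithZero.exp_zsmul]
    congr 1
    simp
  have hk1 : (WithZero.exp (-(k : ℤ)) : WithZero (Multiplicative ℤ)) ≤ 1 := by
    rw [← WithZero.exp_zero, WithZero.exp_le_exp]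
    omega
  have key : ∀ ξ : v.adicCompletion F, vv v ξ ≤ WithZero.exp C → ∃ β : 𝓞 F,
      vv v (algebraMap F (v.adicCompletion F) (algebraMap (𝓞 F) F β) - ξ * P) ≤ WithZero.exp (-(k : ℤ)) := by
    intro ξ hξ
    have h1 : vv v (ξ * P) ≤ 1 := by
      rw [map_mul, hP1]
      refine (mul_le_mul' hξ le_rfl).trans ?_
      rw [exp_mul, ← WithZero.exp_zero, WithZero.exp_le_exp]
      omega
    obtain ⟨x, hx⟩ := exists_approx v (ξ * P) (WithZero.exp (-(k : ℤ))) WithZero.exp_ne_zero
    have h2 : v.valuation F x ≤ 1 := by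
      rw [← vv_coe]
      have e1 : algebraMap F (v.adicCompletion F) x = (algebraMap F (v.adicCompletion F) x - ξ * P) + ξ * P := by
        ring
      rw [e1]
      exact (Valuation.map_add _ _ _).trans (max_le (hx.le.trans hk1) h1)
    obtain ⟨β, hβ⟩ := v.exists_valuation_sub_lt_of_integer (K := F) (x := x) h2
      (Units.mk0 (WithZero.exp (-(k : ℤ))) WithZero.exp_ne_zero)
    rw [Units.val_mk0, ← vv_coe, map_sub] at hβ
    refine ⟨β, ?_⟩
    have e2 : algebraMap F (v.adicCompletion F) (algebraMap (𝓞 F) F β) - ξ * P =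
        (algebraMap F (v.adicCompletion F) (algebraMap (𝓞 F) F β) - algebraMap F (v.adicCompletion F) x) +
        (algebraMap F (v.adicCompletion F) x - ξ * P) := by ring
    rw [e2]
    exact (Valuation.map_add _ _ _).trans (max_le hβ.le hx.le)
  choose! β hβ using key
  refine ⟨fun ξ => Ideal.Quotient.mk _ (β ξ), ?_⟩
  intro ξ ξ' h1 h2 h3
  rw [Ideal.Quotient.mk_eq_mk_iff_sub_mem, ← v.intValuation_le_pow_iff_mem,
    ← v.valuation_of_algebraMap (K := F), ← vv_coe] at h3
  have h4 : vv v ((ξ - ξ') * P) ≤ WithZero.exp (-(k : ℤ)) := by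
    have e1 : (ξ - ξ') * P = (algebraMap F (v.adicCompletion F) (algebraMap (𝓞 F) F (β ξ - β ξ')) -
        (algebraMap F (v.adicCompletion F) (algebraMap (𝓞 F) F (β ξ)) - ξ * P)) +
        (algebraMap F (v.adicCompletion F) (algebraMap (𝓞 F) F (β ξ')) - ξ' * P) := by
      rw [map_sub, map_sub]
      ring
    rw [e1]
    exact (Valuation.map_add _ _ _).trans (max_le ((Valuation.map_sub _ _ _).trans (max_le h3 (hβ ξ h1)))
      (hβ ξ' h2))
  rw [map_mul, hP1] at h4
  have h5 : vv v (ξ - ξ') = vv v (ξ - ξ') * WithZero.exp (-C) * WithZero.exp C := by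
    rw [mul_assoc, exp_mul]
    simp
  rw [h5]
  refine (mul_le_mul' h4 le_rfl).trans ?_
  rw [exp_mul, WithZero.exp_le_exp]
  omega

theorem au_iff (v : HeightOneSpectrum (𝓞 F)) (D a : F) : AU v D a ↔
    a ≠ 0 ∧ ∃ x z : v.adicCompletion F, x ^ 2 + algebraMap F _ D * z ^ 2 = 1 ∧ vv v (2 * x) ≤ 1 ∧
    Cl (algebraMap F _ D) x (algebraMap F _ a) := by
  unfold AU Cl
  simp only [coe_eq]
  rfl

theorem two_ne (v : HeightOneSpectrum (𝓞 F)) : (2 : v.adicCompletion F) ≠ 0 := by
  have e : (2 : v.adicCompletion F) = algebraMap F _ 2 := by rw [map_ofNat]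
  rw [e]
  exact (map_ne_zero _).2 (by norm_num)

/-- the local degree -/
theorem norm_pow (v : HeightOneSpectrum (𝓞 F)) (hv : Dy v) {e : ℕ}
    (he : v.valuation F 2 = WithZero.exp (-(e : ℤ))) :
    Ideal.absNorm v.asIdeal ^ e = 2 ^ (v.asIdeal.ramificationIdx ℤ * v.asIdeal.inertiaDeg ℤ) := by
  have hp : (Ideal.span {(2 : ℤ)}).IsPrime := by
    rw [Ideal.span_singleton_prime (by norm_num)]
    exact Int.prime_two
  have hmax : (Ideal.span {(2 : ℤ)}).IsMaximal := hp.isMaximal (by
    rw [Ne, Ideal.span_singleton_eq_bot]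
    norm_num)
  have hvm : v.asIdeal.IsMaximal := v.isMaximal
  have hlie : v.asIdeal.LiesOver (Ideal.span {(2 : ℤ)}) := by
    constructor
    apply hmax.eq_of_le
    · exact (inferInstance : (v.asIdeal.under ℤ).IsPrime).ne_top
    · rw [Ideal.span_singleton_le_iff_mem, Ideal.mem_comap]
      have : algebraMap ℤ (𝓞 F) 2 = (2 : 𝓞 F) := by simp
      rw [this]
      exact hv
  have hmap : (Ideal.span {(2 : ℤ)}).map (algebraMap ℤ (𝓞 F)) = Ideal.span {(2 : 𝓞 F)} := by
    rw [Ideal.map_span, Set.image_singleton]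
    simp
  have h22 : v.valuation F ((2 : 𝓞 F) : F) = WithZero.exp (-(e : ℤ)) := by
    rw [← he]
    congr 1
  have h1 : (Ideal.span {(2 : ℤ)}).ramificationIdx' v.asIdeal = e := by
    apply Ideal.ramificationIdx'_spec
    · rw [hmap, Ideal.span_singleton_le_iff_mem, ← v.intValuation_le_pow_iff_mem,
        ← v.valuation_of_algebraMap (K := F), h22]
    · rw [hmap, Ideal.span_singleton_le_iff_mem, ← v.intValuation_le_pow_iff_mem,
        ← v.valuation_of_algebraMap (K := F), h22, WithZero.exp_le_exp]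
      push_cast
      omega
  have h2 : v.asIdeal.ramificationIdx ℤ = e := by
    rw [← h1]
    symm
    apply Ideal.ramificationIdx'_eq_ramificationIdx'
    rw [hmap, Ne, Ideal.span_singleton_eq_bot]
    norm_num
  have h3 : v.asIdeal.inertiaDeg ℤ = (Ideal.span {(2 : ℤ)}).inertiaDeg' v.asIdeal :=
    (Ideal.inertiaDeg'_eq_inertiaDeg _ _).symm
  have h4 := Ideal.absNorm_eq_pow_inertiaDeg (p := 2) v.asIdeal Int.prime_two
  rw [h2, h3, h4, ← pow_mul, mul_comm]
  simp

end

/-- JOB AUL of project LQ -/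
theorem t_AUL : Pool.Agent.Q283.LQ.S_AUL := by
  intro F _ _ I
  have hA := atl F
  refine ⟨?_, ?_, ?_, ?_, ?_, ?_⟩
  · intro v D a hv hD h
    by_cases hI : I ≤ v.asIdeal
    · exact hA.ne v D a hv hD (h.1 hI)
    · exact (h.2 hI).1
  · intro v D a b hv hD h hb
    refine ⟨fun hI => hA.mul v D a b hv hD (h.1 hI) hb, fun hI => ?_⟩
    have h' := h.2 hI
    rw [au_iff] at h' ⊢
    obtain ⟨ha, x, z, h1, h2, h3⟩ := h'
    obtain ⟨hb0, s, hs⟩ := (lsq_iff v b).1 hb
    refine ⟨mul_ne_zero ha hb0, x, z, h1, h2, ?_⟩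
    rcases h3 with ⟨h4, y, hy⟩ | ⟨h4, y, hy⟩
    · refine Or.inl ⟨h4, y * s, ?_⟩
      rw [map_mul, hs]
      linear_combination (s * s) * hy
    · refine Or.inr ⟨h4, y * s, ?_⟩
      rw [map_mul, hs]
      linear_combination (s * s) * hy
  · intro v D n a hv hD hn h
    refine ⟨fun hI => hA.inv v D n a hv hD hn (h.1 hI), fun hI => ?_⟩
    have h' := h.2 hI
    rw [au_iff] at h' ⊢
    obtain ⟨ha, x, z, h1, h2, h3⟩ := h'
    obtain ⟨hn0, s, hs⟩ := (lsq_iff v n).1 hn
    have hs0 : s ≠ 0 := by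
      rintro rfl
      apply (map_ne_zero (algebraMap F (v.adicCompletion F))).2 hn0
      rw [hs]
      ring
    refine ⟨ha, x, z / s, ?_, h2, ?_⟩
    · rw [map_mul, hs]
      field_simp
      linear_combination h1
    · rcases h3 with ⟨h4, hy⟩ | ⟨h4, y, hy⟩
      · exact Or.inl ⟨h4, hy⟩
      · refine Or.inr ⟨h4, y * s, ?_⟩
        rw [map_mul, hs]
        linear_combination (s * s) * hy
  · intro v D a hv hD h
    refine ⟨fun hI => hA.clo v D a hv hD (h.1 hI), fun hI => ?_⟩
    have h' := h.2 hI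
    rw [au_iff] at h' ⊢
    obtain ⟨ha, x, z, h1, h2, h3⟩ := h'
    have hD1 : algebraMap F (v.adicCompletion F) D ≠ 0 := (map_ne_zero _).2 hD
    refine ⟨mul_ne_zero ha hD, -x, -z, by linear_combination h1, ?_, ?_⟩
    · rw [mul_neg, Valuation.map_neg]
      exact h2
    · rcases h3 with ⟨h4, y, hy⟩ | ⟨h4, y, hy⟩
      · by_cases hx1 : x = 1
        · refine Or.inr ⟨by rw [hx1], ?_⟩
          rw [hx1] at hy
          apply sq_cancel (two_ne v)
          refine ⟨y * algebraMap F _ D, ?_⟩
          rw [map_mul]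
          linear_combination (algebraMap F (v.adicCompletion F) D) ^ 2 * hy
        · refine Or.inl ⟨fun h5 => hx1 (by linear_combination -h5), ?_⟩
          have hx0 : 2 + 2 * x ≠ 0 := by
            intro h0
            apply h4
            have : 2 * (x + 1) = 0 := by linear_combination h0
            have := (mul_eq_zero.1 this).resolve_left (two_ne v)
            linear_combination this
          apply sq_cancel hx0
          refine ⟨y * (2 * algebraMap F _ D * z), ?_⟩
          rw [map_mul]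
          linear_combination (4 * (algebraMap F (v.adicCompletion F) D) ^ 2 * z ^ 2) * hy +
            (-4 * algebraMap F (v.adicCompletion F) a * algebraMap F (v.adicCompletion F) D * (2 + 2 * x)) * h1
      · refine Or.inl ⟨?_, y * 2, ?_⟩
        · rw [h4]
          intro h5
          apply two_ne v
          linear_combination h5
        · rw [map_mul, h4]
          linear_combination 4 * hy
  · intro v D hv hD B hB hpair
    by_cases hI : I ≤ v.asIdeal
    · have h1 := hA.num v D hv hD B (fun b hb => (hB b hb).1 hI) hpair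
      refine h1.trans (Nat.pow_le_pow_right (by norm_num) ?_)
      omega
    · have hc : cI I v = v.asIdeal.ramificationIdx ℤ * v.asIdeal.inertiaDeg ℤ := by
        unfold cI
        rw [if_pos ⟨hv, hI⟩]
      obtain ⟨e, he⟩ := exists_ord v
      have hw2 : vv v (2 : v.adicCompletion F) = WithZero.exp (-(e : ℤ)) := by
        rw [← he, ← vv_coe, map_ofNat (algebraMap F (v.adicCompletion F)) 2]
      have hD1 : algebraMap F (v.adicCompletion F) D ≠ 0 := (map_ne_zero _).2 hD
      have h1 := num_gen (K := v.adicCompletion F) (w := vv v) (D := algebraMap F _ D) (two_ne v) hD1 hw2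
        (exists_sqrt v) (fun k => 𝓞 F ⧸ v.asIdeal ^ k) (fun k => fin_quot v k) (exists_red v) B
        (fun b => algebraMap F _ b) (by
          intro b hb
          have h2 := (hB b hb).2 hI
          rw [au_iff] at h2
          obtain ⟨ha, x, z, h3, h4, h5⟩ := h2
          exact ⟨(map_ne_zero _).2 ha, ⟨x, z, h3, h4⟩, h5⟩) (by
          intro b hb b' hb' hne hs
          apply hpair b hb b' hb' hne
          rw [lsq_iff]
          refine ⟨mul_ne_zero ((hB b hb).2 hI).1 ((hB b' hb').2 hI).1, ?_⟩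
          rw [map_mul]
          exact hs)
      have h2 : Nat.card (𝓞 F ⧸ v.asIdeal ^ e) = Ideal.absNorm v.asIdeal ^ e := by
        rw [← map_pow, Ideal.absNorm_apply, Submodule.cardQuot_apply]
      rw [hc, pow_succ, mul_comm, ← norm_pow v hv he, ← h2]
      exact h1
  · intro v hv
    unfold cI
    rw [if_neg (fun h => hv h.1)]

end Pool.Agent.Q1.LK
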