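import Pool.Agent.Q198.LQ.ATL
import Pool.Agent.Q96.LQ.LOC

/-!
# The points of the torus `x² + D z² = 1` with integral trace: the number of the classes modulo squares
-/

set_option autoImplicit false

namespace Pool.Agent.Q1.LK

open Pool.Agent.Q198.LQ Pool.Agent.Q96.LQ

section Gen

variable {K : Type} [Field K] (w : Valuation K (WithZero (Multiplicative ℤ))) (D : K)

/-- the points of the torus with integral trace -/
@[ext] structure Pt where
  x : K
  z : K
  nrm : x ^ 2 + D * z ^ 2 = 1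
  int : w (2 * x) ≤ 1

variable {w D}

theorem w_two_le : w (2 : K) ≤ 1 := by
  have := w.map_add (1 : K) 1
  rw [one_add_one_eq_two, map_one, max_self] at this
  exact this

theorem int_mul {a a' b : K} (ha : w a ≤ 1) (ha' : w a' ≤ 1)
    (h : b ^ 2 = a * a' * b - (a ^ 2 + a' ^ 2 - 2 * 2)) : w b ≤ 1 := by
  by_contra hb
  push Not at hb
  have h2 : w (a ^ 2 + a' ^ 2 - 2 * 2) ≤ 1 := by
    refine (Valuation.map_sub _ _ _).trans (max_le ((Valuation.map_add _ _ _).trans (max_le ?_ ?_)) ?_)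
    · rw [map_pow]
      exact pow_le_one' ha 2
    · rw [map_pow]
      exact pow_le_one' ha' 2
    · rw [map_mul]
      exact mul_le_one' w_two_le w_two_le
  have h1 : w (b ^ 2) ≤ w b := by
    rw [h]
    refine (Valuation.map_sub _ _ _).trans (max_le ?_ (h2.trans hb.le))
    rw [map_mul, map_mul]
    exact mul_le_of_le_one_left' (mul_le_one' ha ha')
  rw [map_pow, sq] at h1
  have h3 : w b * w b ≤ w b * 1 := by rwa [mul_one]
  have h4 : 0 < w b := zero_lt_one.trans hb
  exact absurd (le_of_mul_le_mul_left h3 h4) (not_le.2 hb)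

theorem Pt.ext' {p q : Pt w D} (h1 : p.x = q.x) (h2 : p.z = q.z) : p = q := Pt.ext h1 h2

instance : Mul (Pt w D) := ⟨fun p q => ⟨p.x * q.x - D * p.z * q.z, p.x * q.z + q.x * p.z,
  norm_mul p.nrm q.nrm, int_mul p.int q.int (by
    have h1 := p.nrm
    have h2 := q.nrm
    linear_combination (4 * D * q.z ^ 2) * h1 + (4 - 4 * p.x ^ 2) * h2)⟩⟩

instance : One (Pt w D) := ⟨⟨1, 0, by ring, by rw [mul_one]; exact w_two_le⟩⟩

instance : Inv (Pt w D) := ⟨fun p => ⟨p.x, -p.z, by rw [neg_sq]; exact p.nrm, p.int⟩⟩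

@[simp] theorem mul_x (p q : Pt w D) : (p * q).x = p.x * q.x - D * p.z * q.z := rfl
@[simp] theorem mul_z (p q : Pt w D) : (p * q).z = p.x * q.z + q.x * p.z := rfl
@[simp] theorem one_x : (1 : Pt w D).x = 1 := rfl
@[simp] theorem one_z : (1 : Pt w D).z = 0 := rfl
@[simp] theorem inv_x (p : Pt w D) : (p⁻¹).x = p.x := rfl
@[simp] theorem inv_z (p : Pt w D) : (p⁻¹).z = -p.z := rfl

instance : CommGroup (Pt w D) where
  mul_assoc p q r := Pt.ext' (by simp only [mul_x, mul_z]; ring) (by simp only [mul_x, mul_z]; ring)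
  one_mul p := Pt.ext' (by simp) (by simp)
  mul_one p := Pt.ext' (by simp) (by simp)
  inv_mul_cancel p := Pt.ext' (by
    simp only [mul_x, inv_x, inv_z, one_x]
    linear_combination p.nrm) (by simp only [mul_z, inv_x, inv_z, one_z]; ring)
  mul_comm p q := Pt.ext' (by simp only [mul_x]; ring) (by simp only [mul_z]; ring)

/-- the point `(-1, 0)` -/
def mI : Pt w D := ⟨-1, 0, by ring, by rw [mul_neg, Valuation.map_neg, mul_one]; exact w_two_le⟩

@[simp] theorem mI_x : (mI : Pt w D).x = -1 := rfl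
@[simp] theorem mI_z : (mI : Pt w D).z = 0 := rfl

theorem w_le_one_of {x : K} (h : w (x - 1) < w 2) : w x = 1 := by
  have h1 : w (x - 1) < 1 := h.trans_le w_two_le
  have h2 : w (x - 1) < w 1 := by rwa [map_one]
  have := w.map_add_eq_of_lt_left h2
  rwa [add_sub_cancel, map_one] at this

/-- the points near `1` -/
def V (γ : WithZero (Multiplicative ℤ)) (hγ : w D * γ ^ 2 < w 2) : Subgroup (Pt w D) where
  carrier := {p | w p.z ≤ γ ∧ w (p.x - 1) < w 2}
  mul_mem' := by
    rintro p q ⟨h1, h2⟩ ⟨h3, h4⟩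
    have hp := w_le_one_of h2
    have hq := w_le_one_of h4
    refine ⟨?_, ?_⟩
    · rw [mul_z]
      refine (Valuation.map_add _ _ _).trans (max_le ?_ ?_)
      · rw [map_mul, hp, one_mul]
        exact h3
      · rw [map_mul, hq, one_mul]
        exact h1
    · have e : (p * q).x - 1 = ((p.x - 1) * q.x + (q.x - 1)) - D * p.z * q.z := by
        rw [mul_x]
        ring
      rw [e]
      refine (Valuation.map_sub _ _ _).trans_lt (max_lt ((Valuation.map_add _ _ _).trans_lt
        (max_lt ?_ h4)) ?_)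
      · rw [map_mul, hq, mul_one]
        exact h2
      · rw [map_mul, map_mul, mul_assoc]
        refine lt_of_le_of_lt ?_ hγ
        rw [sq]
        exact mul_le_mul' le_rfl (mul_le_mul' h1 h3)
  one_mem' := ⟨by simp, by
    have h0 : 0 < w 2 := lt_of_le_of_lt zero_le hγ
    simpa using h0⟩
  inv_mem' := by
    rintro p ⟨h1, h2⟩
    exact ⟨by rw [inv_z, Valuation.map_neg]; exact h1, h2⟩

theorem mem_V {γ : WithZero (Multiplicative ℤ)} {hγ : w D * γ ^ 2 < w 2} {p : Pt w D} :
    p ∈ V γ hγ ↔ w p.z ≤ γ ∧ w (p.x - 1) < w 2 := Iff.rfl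

/-- the distance of `x` from `1` -/
theorem near {e : ℕ} (hw2 : w (2 : K) = WithZero.exp (-(e : ℤ))) {δ m : ℤ} (hδ : w D = WithZero.exp δ) {x z : K}
    (h : x ^ 2 + D * z ^ 2 = 1) (hz : w z ≤ WithZero.exp (-m)) (hx : w (x - 1) < w 2) :
    w (x - 1) ≤ WithZero.exp (δ - 2 * m + e) := by
  have h1 : w (x + 1) = WithZero.exp (-(e : ℤ)) := by
    have := w.map_add_eq_of_lt_left hx
    rw [← hw2, ← this]
    congr 1
    ring
  have h2 : w (x - 1) * w (x + 1) = w D * (w z * w z) := by
    rw [← map_mul, ← map_mul, ← map_mul, ← Valuation.map_neg w (D * (z * z))]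
    congr 1
    linear_combination h
  have h3 : w (x - 1) * WithZero.exp (-(e : ℤ)) ≤ WithZero.exp (δ - 2 * m) := by
    rw [← h1, h2, hδ]
    calc WithZero.exp δ * (w z * w z) ≤ WithZero.exp δ * (WithZero.exp (-m) * WithZero.exp (-m)) :=
          mul_le_mul' le_rfl (mul_le_mul' hz hz)
      _ = WithZero.exp (δ - 2 * m) := by
        rw [← WithZero.exp_add, ← WithZero.exp_add]
        congr 1
        ring
  have h4 : w (x - 1) = w (x - 1) * WithZero.exp (-(e : ℤ)) * WithZero.exp (e : ℤ) := by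
    rw [mul_assoc, ← WithZero.exp_add]
    simp
  rw [h4, WithZero.exp_add]
  exact mul_le_mul' h3 le_rfl

/-- the points near `1` are squares -/
theorem V_sq {e : ℕ} (h2 : (2 : K) ≠ 0) (hw2 : w (2 : K) = WithZero.exp (-(e : ℤ)))
    {δ m : ℤ} (hδ : w D = WithZero.exp δ)
    (hm : δ + 4 * e < 2 * m) (hsq : ∀ t : K, w t < w 4 → ∃ y : K, y ^ 2 = 1 + t)
    {hγ : w D * WithZero.exp (-m) ^ 2 < w 2} {p : Pt w D} (hp : p ∈ V (WithZero.exp (-m)) hγ) :
    ∃ s : Pt w D, s * s = p := by
  obtain ⟨hz, hx⟩ := hp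
  have h1 := near hw2 hδ p.nrm hz hx
  have h4 : w (4 : K) = WithZero.exp (-(2 * e : ℤ)) := by
    have : (4 : K) = 2 * 2 := by norm_num
    rw [this, map_mul, hw2, ← WithZero.exp_add]
    congr 1
    ring
  obtain ⟨y, hy⟩ := hsq ((p.x - 1) / 2) (by
    rw [map_div₀, h4, hw2]
    calc w (p.x - 1) / WithZero.exp (-(e : ℤ)) ≤ WithZero.exp (δ - 2 * m + e) / WithZero.exp (-(e : ℤ)) := by
          rw [div_eq_mul_inv, div_eq_mul_inv]
          exact mul_le_mul' h1 le_rfl
      _ = WithZero.exp (δ - 2 * m + e + e) := by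
        rw [← WithZero.exp_sub]
        congr 1
        ring
      _ < _ := by
        rw [WithZero.exp_lt_exp]
        omega)
  have hy2 : 2 * y ^ 2 = 1 + p.x := by
    rw [hy]
    field_simp
    ring
  have hx1 : w (p.x + 1) = w 2 := by
    have := w.map_add_eq_of_lt_left hx
    rw [← this]
    congr 1
    ring
  have hy0 : y ≠ 0 := by
    rintro rfl
    have h5 : p.x + 1 = 0 := by linear_combination -hy2
    rw [h5, map_zero, hw2] at hx1
    exact WithZero.exp_ne_zero hx1.symm
  have hwy : w y = 1 := by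
    have h5 : w 2 * w y ^ 2 = w 2 := by
      rw [← map_pow, ← map_mul, hy2, add_comm, hx1]
    have h6 : w 2 ≠ 0 := by
      rw [hw2]
      exact WithZero.exp_ne_zero
    have h7 : w y ^ 2 = 1 := mul_left_cancel₀ h6 (by rw [h5, mul_one])
    have h8 : w y ^ 2 = 1 ^ 2 := by rw [h7, one_pow]
    exact (pow_left_inj₀ zero_le zero_le two_ne_zero).mp h8
  have hn := p.nrm
  have hnn : y ^ 2 + D * (p.z / (2 * y)) ^ 2 = 1 := by
    have h5 : D * p.z ^ 2 = (1 - p.x) * (1 + p.x) := by linear_combination hn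
    field_simp
    rw [← sub_eq_zero]
    have h6 : D * p.z ^ 2 = (2 - 2 * y ^ 2) * (2 * y ^ 2) := by
      rw [h5]
      have : p.x = 2 * y ^ 2 - 1 := by linear_combination -hy2
      rw [this]
      ring
    linear_combination h6
  refine ⟨⟨y, p.z / (2 * y), hnn, ?_⟩, Pt.ext' ?_ ?_⟩
  · rw [map_mul, hwy, mul_one]
    exact w_two_le
  · rw [mul_x]
    show y * y - D * (p.z / (2 * y)) * (p.z / (2 * y)) = p.x
    linear_combination hy2 - hnn
  · rw [mul_z]
    show y * (p.z / (2 * y)) + y * (p.z / (2 * y)) = p.z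
    field_simp
    ring

end Gen

end Pool.Agent.Q1.LK
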