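import Pool.Agent.Q1.LK.Aul0

/-!
# The number of the classes modulo squares of the points with integral trace
-/

set_option autoImplicit false

namespace Pool.Agent.Q1.LK

open Pool.Agent.Q198.LQ Pool.Agent.Q96.LQ

section Gen

variable {K : Type} [Field K] {w : Valuation K (WithZero (Multiplicative ℤ))} {D : K}

theorem exp_mul (a b : ℤ) : (WithZero.exp a : WithZero (Multiplicative ℤ)) * WithZero.exp b =
    WithZero.exp (a + b) := (WithZero.exp_add a b).symm

theorem w_x_le {e : ℕ} (hw2 : w (2 : K) = WithZero.exp (-(e : ℤ))) (p : Pt w D) :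
    w p.x ≤ WithZero.exp (e : ℤ) := by
  have h := p.int
  rw [map_mul, hw2] at h
  have h1 : w p.x = WithZero.exp (e : ℤ) * (WithZero.exp (-(e : ℤ)) * w p.x) := by
    rw [← mul_assoc, exp_mul]
    simp
  rw [h1]
  exact mul_le_of_le_one_right' h

theorem w_z_le {e : ℕ} (hw2 : w (2 : K) = WithZero.exp (-(e : ℤ))) {δ C : ℤ} (hδ : w D = WithZero.exp δ)
    (hC : 2 * (e : ℤ) - δ ≤ 2 * C) (p : Pt w D) : w p.z ≤ WithZero.exp C := by
  by_contra hcon
  push Not at hcon
  have h1 : w (D * p.z ^ 2) ≤ WithZero.exp (2 * e : ℤ) := by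
    have e1 : D * p.z ^ 2 = 1 - p.x ^ 2 := by linear_combination p.nrm
    rw [e1]
    refine (Valuation.map_sub _ _ _).trans (max_le ?_ ?_)
    · rw [map_one, ← WithZero.exp_zero, WithZero.exp_le_exp]
      omega
    · rw [map_pow, sq, two_mul, WithZero.exp_add]
      exact mul_le_mul' (w_x_le hw2 p) (w_x_le hw2 p)
  have h2 : WithZero.exp (2 * e : ℤ) < w (D * p.z ^ 2) := by
    rw [map_mul, hδ, map_pow, sq]
    calc (WithZero.exp (2 * e : ℤ) : WithZero (Multiplicative ℤ)) ≤ WithZero.exp (δ + (C + C)) := by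
          rw [WithZero.exp_le_exp]
          omega
      _ = WithZero.exp δ * (WithZero.exp C * WithZero.exp C) := by rw [exp_mul, exp_mul]
      _ < WithZero.exp δ * (w p.z * w p.z) := by
        apply mul_lt_mul_of_pos_left _ WithZero.exp_pos
        exact mul_lt_mul'' hcon hcon zero_le zero_le
  exact absurd h1 (not_le.2 h2)

theorem inv_mul_x (p q : Pt w D) : (p⁻¹ * q).x = p.x * q.x + D * p.z * q.z := by
  simp only [mul_x, inv_x, inv_z]
  ring

theorem inv_mul_z (p q : Pt w D) : (p⁻¹ * q).z = p.x * (q.z - p.z) + (p.x - q.x) * p.z := by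
  simp only [mul_z, inv_x, inv_z]
  ring

/-- points near each other -/
theorem near_of_close {e : ℕ} (hw2 : w (2 : K) = WithZero.exp (-(e : ℤ))) {δ C m : ℤ} (hδ : w D = WithZero.exp δ)
    {k : ℕ} (he : (e : ℤ) ≤ C) (hm : (e : ℤ) ≤ m)
    (hC : 2 * (e : ℤ) - δ ≤ 2 * C) (hk : 2 * C + m + 1 ≤ k) (hk' : δ + 2 * C + m + 1 ≤ k)
    {hγ : w D * WithZero.exp (-m) ^ 2 < w 2} {p q : Pt w D}
    (h1 : w (p.x - q.x) ≤ WithZero.exp (C - k)) (h2 : w (p.z - q.z) ≤ WithZero.exp (C - k)) :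
    p⁻¹ * q ∈ V (WithZero.exp (-m)) hγ := by
  have hx : w p.x ≤ WithZero.exp C := (w_x_le hw2 p).trans (WithZero.exp_le_exp.2 he)
  have hz := w_z_le hw2 hδ hC p
  have h2' : w (q.z - p.z) ≤ WithZero.exp (C - k) := by rwa [Valuation.map_sub_swap]
  have h1' : w (q.x - p.x) ≤ WithZero.exp (C - k) := by rwa [Valuation.map_sub_swap]
  refine ⟨?_, ?_⟩
  · rw [inv_mul_z]
    refine (Valuation.map_add _ _ _).trans (max_le ?_ ?_)
    · rw [map_mul]
      refine (mul_le_mul' hx h2').trans ?_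
      rw [exp_mul, WithZero.exp_le_exp]
      omega
    · rw [map_mul]
      refine (mul_le_mul' h1 hz).trans ?_
      rw [exp_mul, WithZero.exp_le_exp]
      omega
  · have e1 : (p⁻¹ * q).x - 1 = p.x * (q.x - p.x) + D * p.z * (q.z - p.z) := by
      rw [inv_mul_x]
      linear_combination p.nrm
    rw [e1, hw2]
    refine (Valuation.map_add _ _ _).trans_lt (max_lt ?_ ?_)
    · rw [map_mul]
      refine (mul_le_mul' hx h1').trans_lt ?_
      rw [exp_mul, WithZero.exp_lt_exp]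
      omega
    · rw [map_mul, map_mul, hδ]
      refine (mul_le_mul' (mul_le_mul' le_rfl hz) h2').trans_lt ?_
      rw [exp_mul, exp_mul, WithZero.exp_lt_exp]
      omega

theorem exp_sq (m : ℤ) : (WithZero.exp m : WithZero (Multiplicative ℤ)) ^ 2 = WithZero.exp (2 * m) := by
  rw [sq, exp_mul]
  congr 1
  ring

theorem hγ_of {e : ℕ} (hw2 : w (2 : K) = WithZero.exp (-(e : ℤ))) {δ m : ℤ} (hδ : w D = WithZero.exp δ)
    (hm : δ + e < 2 * m) : w D * WithZero.exp (-m) ^ 2 < w 2 := by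
  rw [hδ, hw2, exp_sq, exp_mul, WithZero.exp_lt_exp]
  omega

/-- the quotient is finite -/
theorem fin_idx {e : ℕ} (hw2 : w (2 : K) = WithZero.exp (-(e : ℤ))) {δ m : ℤ} (hδ : w D = WithZero.exp δ)
    (hm : (e : ℤ) ≤ m) (hγ : w D * WithZero.exp (-m) ^ 2 < w 2)
    (T : ℕ → Type) (hT : ∀ k, Finite (T k))
    (red : ∀ (C : ℤ) (k : ℕ), ∃ r : K → T k, ∀ ξ ξ', w ξ ≤ WithZero.exp C → w ξ' ≤ WithZero.exp C →
      r ξ = r ξ' → w (ξ - ξ') ≤ WithZero.exp (C - k)) :
    Finite (Pt w D ⧸ V (WithZero.exp (-m)) hγ) := by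
  set C : ℤ := e + |δ| with hC
  have hδ1 := le_abs_self δ
  have hδ2 := neg_abs_le δ
  have hδ3 := abs_nonneg δ
  set k : ℕ := (2 * C + |δ| + m + 1).toNat with hk
  have hkk : (k : ℤ) = 2 * C + |δ| + m + 1 := by
    rw [hk]
    omega
  obtain ⟨r, hr⟩ := red C k
  have := hT k
  let g : Pt w D ⧸ V (WithZero.exp (-m)) hγ → T k × T k := fun a => (r a.out.x, r a.out.z)
  apply Finite.of_injective g
  intro a b hab
  simp only [g, Prod.mk.injEq] at hab
  have h1 := hr _ _ ((w_x_le hw2 a.out).trans (WithZero.exp_le_exp.2 (by omega)))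
    ((w_x_le hw2 b.out).trans (WithZero.exp_le_exp.2 (by omega))) hab.1
  have hCC : 2 * (e : ℤ) - δ ≤ 2 * C := by omega
  have h2 := hr _ _ (w_z_le hw2 hδ hCC a.out) (w_z_le hw2 hδ hCC b.out) hab.2
  have h3 := near_of_close (hγ := hγ) hw2 hδ (k := k) (C := C) (by omega) hm hCC (by omega) (by omega) h1 h2
  rw [← QuotientGroup.out_eq' a, ← QuotientGroup.out_eq' b]
  exact QuotientGroup.eq.2 h3

/-- the square of a point is near `1` -/
theorem half {e : ℕ} (hw2 : w (2 : K) = WithZero.exp (-(e : ℤ))) {δ m : ℤ} (hδ : w D = WithZero.exp δ)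
    (hm : δ + 2 * e < 2 * m)
    (hγ : w D * WithZero.exp (-m) ^ 2 < w 2) (hγ' : w D * WithZero.exp (-(m + e)) ^ 2 < w 2) {p : Pt w D}
    (hp : p * p ∈ V (WithZero.exp (-(m + e))) hγ') :
    p ∈ V (WithZero.exp (-m)) hγ ∨ mI * p ∈ V (WithZero.exp (-m)) hγ := by
  obtain ⟨h1, h2⟩ := hp
  have hx2 : (p * p).x - 1 = 2 * (p.x ^ 2 - 1) := by
    rw [mul_x]
    linear_combination -p.nrm
  have hw20 : 0 < w 2 := by
    rw [hw2]
    exact WithZero.exp_pos
  have h3 : w (p.x ^ 2 - 1) < 1 := by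
    rw [hx2, map_mul] at h2
    by_contra hcon
    push Not at hcon
    exact absurd h2 (not_lt.2 (le_mul_of_one_le_right' hcon))
  have h4 : w p.x = 1 := by
    have h5 : w (p.x ^ 2 - 1) < w 1 := by rwa [map_one]
    have h6 := w.map_add_eq_of_lt_left h5
    rw [add_sub_cancel, map_one, map_pow] at h6
    have h8 : w p.x ^ 2 = 1 ^ 2 := by rw [h6, one_pow]
    exact (pow_left_inj₀ zero_le zero_le two_ne_zero).mp h8
  have h5 : w p.z ≤ WithZero.exp (-m) := by
    have e1 : (p * p).z = 2 * p.x * p.z := by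
      rw [mul_z]
      ring
    rw [e1, map_mul, map_mul, h4, mul_one, hw2] at h1
    have h6 : w p.z = WithZero.exp (e : ℤ) * (WithZero.exp (-(e : ℤ)) * w p.z) := by
      rw [← mul_assoc, exp_mul]
      simp
    rw [h6]
    refine (mul_le_mul' le_rfl h1).trans ?_
    rw [exp_mul, WithZero.exp_le_exp]
    omega
  have h6 : w (p.x - 1) * w (p.x + 1) ≤ WithZero.exp (δ - 2 * m) := by
    have e2 : w (p.x - 1) * w (p.x + 1) = w D * (w p.z * w p.z) := by
      rw [← map_mul, ← map_mul, ← map_mul, ← Valuation.map_neg w (D * (p.z * p.z))]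
      congr 1
      linear_combination p.nrm
    rw [e2, hδ]
    refine (mul_le_mul' le_rfl (mul_le_mul' h5 h5)).trans ?_
    rw [exp_mul, exp_mul, WithZero.exp_le_exp]
    omega
  have h7 : w (p.x - 1) < w 2 ∨ w (p.x + 1) < w 2 := by
    by_contra hcon
    push Not at hcon
    have h8 := (mul_le_mul' hcon.1 hcon.2).trans h6
    rw [hw2, exp_mul, WithZero.exp_le_exp] at h8
    omega
  rcases h7 with h7 | h7
  · exact Or.inl ⟨h5, h7⟩
  · refine Or.inr ⟨?_, ?_⟩
    · have e3 : (mI * p).z = -p.z := by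
        rw [mul_z]
        simp
      rw [e3, Valuation.map_neg]
      exact h5
    · have e3 : (mI * p).x - 1 = -(p.x + 1) := by
        rw [mul_x]
        simp
        ring
      rw [e3, Valuation.map_neg]
      exact h7

/-- points of `V m` with nearly the same `z` -/
theorem close_V {e : ℕ} (hw2 : w (2 : K) = WithZero.exp (-(e : ℤ))) {δ m : ℤ} (hδ : w D = WithZero.exp δ)
    (hm : δ + 2 * e ≤ 2 * m) 
    (hγ : w D * WithZero.exp (-m) ^ 2 < w 2) (hγ' : w D * WithZero.exp (-(m + e)) ^ 2 < w 2) {p q : Pt w D}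
    (hp : p ∈ V (WithZero.exp (-m)) hγ) (hq : q ∈ V (WithZero.exp (-m)) hγ)
    (h : w (p.z - q.z) ≤ WithZero.exp (-(m + e))) : p⁻¹ * q ∈ V (WithZero.exp (-(m + e))) hγ' := by
  have h1 := (V (WithZero.exp (-m)) hγ).mul_mem ((V (WithZero.exp (-m)) hγ).inv_mem hp) hq
  refine ⟨?_, h1.2⟩
  have hx := near hw2 hδ p.nrm hp.1 hp.2
  have hy := near hw2 hδ q.nrm hq.1 hq.2
  have hxy : w (p.x - q.x) ≤ WithZero.exp (δ - 2 * m + e) := by
    have e1 : p.x - q.x = (p.x - 1) - (q.x - 1) := by ring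
    rw [e1]
    exact (Valuation.map_sub _ _ _).trans (max_le hx hy)
  rw [inv_mul_z]
  refine (Valuation.map_add _ _ _).trans (max_le ?_ ?_)
  · rw [map_mul, w_le_one_of hp.2, one_mul, Valuation.map_sub_swap]
    exact h
  · rw [map_mul]
    refine (mul_le_mul' hxy hp.1).trans ?_
    rw [exp_mul, WithZero.exp_le_exp]
    omega

/-- the number of the elements of order two in the quotient -/
theorem ker_card' {e : ℕ} (hw2 : w (2 : K) = WithZero.exp (-(e : ℤ))) {δ m : ℤ} (hδ : w D = WithZero.exp δ)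
    (hm : δ + 2 * e < 2 * m)
    (hγ : w D * WithZero.exp (-m) ^ 2 < w 2) (hγ' : w D * WithZero.exp (-(m + e)) ^ 2 < w 2)
    (T : Type) (hT : Finite T)
    (red : ∃ r : K → T, ∀ ξ ξ', w ξ ≤ WithZero.exp (-m) → w ξ' ≤ WithZero.exp (-m) →
      r ξ = r ξ' → w (ξ - ξ') ≤ WithZero.exp (-(m + e))) :
    Nat.card (powMonoidHom 2 : (Pt w D ⧸ V (WithZero.exp (-(m + e))) hγ') →* _).ker ≤ 2 * Nat.card T := by
  classical
  obtain ⟨r, hr⟩ := red
  have key : ∀ a : Pt w D ⧸ V (WithZero.exp (-(m + e))) hγ',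
      a ∈ (powMonoidHom 2 : (Pt w D ⧸ V (WithZero.exp (-(m + e))) hγ') →* _).ker →
      a.out ∈ V (WithZero.exp (-m)) hγ ∨ mI * a.out ∈ V (WithZero.exp (-m)) hγ := by
    intro a ha
    rw [MonoidHom.mem_ker, powMonoidHom_apply, ← QuotientGroup.out_eq' a, ← QuotientGroup.mk_pow,
      QuotientGroup.eq_one_iff, sq] at ha
    exact half hw2 hδ hm hγ hγ' ha
  let g : (powMonoidHom 2 : (Pt w D ⧸ V (WithZero.exp (-(m + e))) hγ') →* _).ker → Bool × T := fun a =>
    if a.1.out ∈ V (WithZero.exp (-m)) hγ then (true, r a.1.out.z) else (false, r (mI * a.1.out).z)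
  have hg : Function.Injective g := by
    intro a b hab
    simp only [g] at hab
    have hout : (a.1.out)⁻¹ * b.1.out ∈ V (WithZero.exp (-(m + e))) hγ' → a = b := by
      intro h
      apply Subtype.ext
      rw [← QuotientGroup.out_eq' a.1, ← QuotientGroup.out_eq' b.1]
      exact QuotientGroup.eq.2 h
    apply hout
    split_ifs at hab with h1 h2 h2
    · simp only [Prod.mk.injEq, true_and] at hab
      exact close_V hw2 hδ hm.le hγ hγ' h1 h2 (hr _ _ h1.1 h2.1 hab)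
    · simp at hab
    · simp at hab
    · simp only [Prod.mk.injEq, true_and] at hab
      have h1' := (key a.1 a.2).resolve_left h1
      have h2' := (key b.1 b.2).resolve_left h2
      have h3 := close_V hw2 hδ hm.le hγ hγ' h1' h2' (hr _ _ h1'.1 h2'.1 hab)
      have h4 : (mI * a.1.out)⁻¹ * (mI * b.1.out) = (a.1.out)⁻¹ * b.1.out := by
        rw [mul_inv, mul_mul_mul_comm, inv_mul_cancel, one_mul]
      rwa [h4] at h3
  have := Nat.card_le_card_of_injective g hg
  rw [Nat.card_prod] at this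
  simpa using this

/-- the number of the classes modulo squares -/
theorem num_gen (h2 : (2 : K) ≠ 0) (hD : D ≠ 0) {e : ℕ} (hw2 : w (2 : K) = WithZero.exp (-(e : ℤ)))
    (hsq : ∀ t : K, w t < w 4 → ∃ y : K, y ^ 2 = 1 + t)
    (T : ℕ → Type) (hT : ∀ k, Finite (T k))
    (red : ∀ (C : ℤ) (k : ℕ), ∃ r : K → T k, ∀ ξ ξ', w ξ ≤ WithZero.exp C → w ξ' ≤ WithZero.exp C →
      r ξ = r ξ' → w (ξ - ξ') ≤ WithZero.exp (C - k))
    {ι : Type} (B : Finset ι) (b : ι → K) (hb : ∀ i ∈ B, b i ≠ 0 ∧ ∃ p : Pt w D, Cl D p.x (b i))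
    (hB : ∀ i ∈ B, ∀ j ∈ B, i ≠ j → ¬ IsSquare (b i * b j)) : B.card ≤ 2 * Nat.card (T e) := by
  classical
  obtain ⟨δ, hδ⟩ : ∃ δ : ℤ, w D = WithZero.exp δ := by
    have : w D ≠ 0 := (Valuation.ne_zero_iff _).2 hD
    exact ⟨WithZero.log (w D), (WithZero.exp_log this).symm⟩
  have hδ1 := le_abs_self δ
  have hδ2 := neg_abs_le δ
  set m : ℤ := 4 * e + |δ| + 1 with hm
  have hδ3 := abs_nonneg δ
  have hγ : w D * WithZero.exp (-m) ^ 2 < w 2 := hγ_of hw2 hδ (by omega)
  have hγ' : w D * WithZero.exp (-(m + e)) ^ 2 < w 2 := hγ_of hw2 hδ (by omega)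
  set G := Pt w D ⧸ V (WithZero.exp (-(m + e))) hγ' with hG
  have hfin : Finite G := fin_idx hw2 hδ (by omega) hγ' T hT red
  have hker : Nat.card (powMonoidHom 2 : G →* G).ker ≤ 2 * Nat.card (T e) := by
    apply ker_card' hw2 hδ (by omega) hγ hγ' (T e) (hT e)
    obtain ⟨r, hr⟩ := red (-m) e
    refine ⟨r, fun ξ ξ' h1 h2 h3 => (hr ξ ξ' h1 h2 h3).trans ?_⟩
    rw [WithZero.exp_le_exp]
    omega
  have h1 := card_quot_sq G
  have hp : ∀ i : ι, ∃ p : Pt w D, i ∈ B → Cl D p.x (b i) := by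
    intro i
    by_cases hi : i ∈ B
    · obtain ⟨p, hp⟩ := (hb i hi).2
      exact ⟨p, fun _ => hp⟩
    · exact ⟨1, fun h => absurd h hi⟩
  choose p hp using hp
  let g : ι → G ⧸ (powMonoidHom 2 : G →* G).range := fun i => ((p i : G) : G ⧸ _)
  have hinj : Set.InjOn g B := by
    intro i hi j hj hij
    by_contra hne
    apply hB i hi j hj hne
    simp only [g] at hij
    rw [QuotientGroup.eq, MonoidHom.mem_range] at hij
    obtain ⟨u, hu⟩ := hij
    obtain ⟨s, rfl⟩ := QuotientGroup.mk_surjective u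
    rw [powMonoidHom_apply, ← QuotientGroup.mk_pow, ← QuotientGroup.mk_inv, ← QuotientGroup.mk_mul,
      QuotientGroup.eq] at hu
    obtain ⟨t, ht⟩ := V_sq (m := m + e) h2 hw2 hδ (by omega) hsq hu
    have h3 : p j = p i * ((s * t) * (s * t)) := by
      have h4 : (s * t) * (s * t) = s ^ 2 * (t * t) := by
        rw [mul_mul_mul_comm, sq]
      rw [h4, ht]
      group
    have hj' : (p j).x = (p i).x * (2 * (s * t).x ^ 2 - 1) - D * (p i).z * (2 * (s * t).x * (s * t).z) := by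
      have h5 := (s * t).nrm
      have h6 : (p i * ((s * t) * (s * t))).x = (p i).x * ((s * t).x * (s * t).x - D * (s * t).z * (s * t).z) -
          D * (p i).z * ((s * t).x * (s * t).z + (s * t).x * (s * t).z) := rfl
      rw [h3, h6]
      linear_combination (-(p i).x) * h5
    rw [mul_comm]
    exact cl_sq hD h2 (hb j hj).1 (hb i hi).1 (p j).nrm (p i).nrm (s * t).nrm hj' (hp j hj) (hp i hi)
  have hF := Fintype.ofFinite (G ⧸ (powMonoidHom 2 : G →* G).range)
  calc B.card = (B.image g).card := (Finset.card_image_of_injOn hinj).symm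
    _ ≤ Nat.card (G ⧸ (powMonoidHom 2 : G →* G).range) := by
        rw [Nat.card_eq_fintype_card]
        exact Finset.card_le_univ _
    _ ≤ _ := by
      rw [h1]
      exact hker

end Gen

end Pool.Agent.Q1.LK
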