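import Pool.Agent.Q1.LK.Mom

/-!
# Project LK: the probability that the kernel is trivial
-/

set_option autoImplicit false
set_option linter.unusedSectionVars false

namespace Pool.Agent.Q1.LK

open Finset Matrix

variable {n : ℕ} {X : Type} [Fintype X] [DecidableEq X] [AddCommGroup X] [Module (ZMod 2) X]
variable (J b : X →ₗ[ZMod 2] (Fin n → ZMod 2))

/-- `J` is injective on the solutions -/
theorem inj_Zs (hJb : ∀ x, J x = 0 → b x = 0 → x = 0) {S : Matrix (Fin n) (Fin n) (ZMod 2)} {x : X}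
    (hx : x ∈ Zs J b S) (h : J x = 0) : x = 0 := by
  refine hJb x h ?_
  rw [mem_Zs] at hx
  rw [← hx, h, mulVec_zero]

theorem inj_Zs' (hJb : ∀ x, J x = 0 → b x = 0 → x = 0) {S : Matrix (Fin n) (Fin n) (ZMod 2)} {x y : X}
    (hx : x ∈ Zs J b S) (hy : y ∈ Zs J b S) (h : J x = J y) : x = y := by
  have h1 : J (x + y) = 0 := by
    rw [map_add, h, pi_add_self]
  have h2 := inj_Zs J b hJb (add_mem_Zs J b hx hy) h1
  have h3 := add_self' y
  rw [← h2] at h3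
  have : y + y = x + y := h3
  exact (add_right_cancel this).symm

theorem kap_zero {S : Matrix (Fin n) (Fin n) (ZMod 2)} (hS : S ∈ Sy n) {x y : X}
    (hx : x ∈ Zs J b S) (hy : y ∈ Zs J b S) : kap J b x y = 0 := by
  rw [mem_Zs] at hx hy
  unfold kap
  rw [← hx, ← hy, dot_symm (mem_Sy.1 hS) (J y) (J x)]
  exact zmod2_add_self _

open Classical in
/-- first moment -/
theorem mom1 (hJb : ∀ x, J x = 0 → b x = 0 → x = 0) :
    ∑ S ∈ Sy n, ∑ x : X, (if x ≠ 0 ∧ x ∈ Zs J b S then (1 : ℝ) else 0) ≤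
      (Fintype.card X : ℝ) * ((Sy n).card / 2 ^ n) := by
  rw [sum_comm]
  have h : ∀ x : X, ∑ S ∈ Sy n, (if x ≠ 0 ∧ x ∈ Zs J b S then (1 : ℝ) else 0) ≤ (Sy n).card / 2 ^ n := by
    intro x
    by_cases hx : x = 0
    · rw [sum_eq_zero fun S _ => if_neg fun h => h.1 hx]
      positivity
    · by_cases hJ : J x = 0
      · rw [sum_eq_zero fun S _ => if_neg fun h => hx (inj_Zs J b hJb h.2 hJ)]
        positivity
      · rw [← sum_filter, sum_const, nsmul_eq_mul, mul_one, le_div_iff₀ (by positivity)]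
        have h1 := count1 (J x) (b x) hJ
        have h2 : ((Sy n).filter fun S => x ≠ 0 ∧ x ∈ Zs J b S) = (Sy n).filter fun S => S *ᵥ J x = b x := by
          ext S
          rw [mem_filter, mem_filter, mem_Zs]
          exact ⟨fun h => ⟨h.1, h.2.2⟩, fun h => ⟨h.1, hx, h.2⟩⟩
        rw [h2]
        exact_mod_cast h1.le
  calc ∑ x : X, ∑ S ∈ Sy n, (if x ≠ 0 ∧ x ∈ Zs J b S then (1 : ℝ) else 0) ≤
      ∑ _x : X, ((Sy n).card / 2 ^ n : ℝ) := sum_le_sum fun x _ => h x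
    _ = _ := by rw [sum_const, card_univ, nsmul_eq_mul]

open Classical in
/-- third moment -/
theorem mom3 (hJb : ∀ x, J x = 0 → b x = 0 → x = 0) :
    ∑ S ∈ Sy n, ∑ x : X, ∑ y : X, ∑ z : X,
      (if Ind3 x y z ∧ x ∈ Zs J b S ∧ y ∈ Zs J b S ∧ z ∈ Zs J b S then (1 : ℝ) else 0) ≤
      ((Fintype.card X : ℝ) ^ 3 + 7 * ((rad J b).card * (Fintype.card X : ℝ) ^ 2)) / 8 *
        ((Sy n).card * 8 / (2 ^ n * 2 ^ n * 2 ^ n)) := by
  rw [← T3_eq J b, sum_mul, sum_comm]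
  refine sum_le_sum fun x _ => ?_
  rw [sum_mul, sum_comm]
  refine sum_le_sum fun y _ => ?_
  rw [sum_mul, sum_comm]
  refine sum_le_sum fun z _ => ?_
  rw [← sum_filter, sum_const, nsmul_eq_mul, mul_one]
  obtain ⟨Q, hQ⟩ : ∃ Q, Q = (Sy n).filter fun S => Ind3 x y z ∧ x ∈ Zs J b S ∧ y ∈ Zs J b S ∧ z ∈ Zs J b S :=
    ⟨_, rfl⟩
  rw [← hQ]
  rcases Q.eq_empty_or_nonempty with h | ⟨S0, hS0⟩
  · rw [h, card_empty, Nat.cast_zero]
    split_ifs <;> positivity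
  · rw [hQ, mem_filter] at hS0
    obtain ⟨hS, ⟨⟨hx0, hy0, hxy⟩, hz0, hzx, hzy, hzxy⟩, hx, hy, hz⟩ := hS0
    rw [if_pos (kap_zero J b hS hx hy), if_pos (kap_zero J b hS hx hz), if_pos (kap_zero J b hS hy hz),
      one_mul, one_mul, one_mul, le_div_iff₀ (by positivity)]
    have hI : Ind3 (J x) (J y) (J z) := by
      refine ⟨⟨fun h => hx0 (inj_Zs J b hJb hx h), fun h => hy0 (inj_Zs J b hJb hy h),
        fun h => hxy (inj_Zs' J b hJb hx hy h)⟩, fun h => hz0 (inj_Zs J b hJb hz h),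
        fun h => hzx (inj_Zs' J b hJb hz hx h), fun h => hzy (inj_Zs' J b hJb hz hy h),
        fun h => hzxy (inj_Zs' J b hJb hz (add_mem_Zs J b hx hy) (by rw [map_add]; exact h))⟩
    have hT := mem_Sy.1 hS
    rw [mem_Zs] at hx hy hz
    have h1 := count3 (J x) (J y) (J z) (b x) (b y) (b z) hI (by rw [← hx, ← hy]; exact dot_symm hT _ _)
      (by rw [← hx, ← hz]; exact dot_symm hT _ _) (by rw [← hy, ← hz]; exact dot_symm hT _ _)
    have h2 : Q = (Sy n).filter fun S => S *ᵥ J x = b x ∧ S *ᵥ J y = b y ∧ S *ᵥ J z = b z := by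
      rw [hQ]
      ext S
      rw [mem_filter, mem_filter, mem_Zs, mem_Zs, mem_Zs]
      exact ⟨fun h => ⟨h.1, h.2.2⟩, fun h => ⟨h.1, ⟨⟨hx0, hy0, hxy⟩, hz0, hzx, hzy, hzxy⟩, h.2⟩⟩
    rw [h2]
    exact_mod_cast h1.le

open Classical in
/-- second moment -/
theorem mom2 :
    (((Fintype.card X : ℝ) ^ 2 + (rad J b).card * (Fintype.card X : ℝ)) / 2 -
        3 * ((univ.filter fun x => J x = 0).card * (Fintype.card X : ℝ))) *
        ((Sy n).card * 2 / (2 ^ n * 2 ^ n)) ≤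
      ∑ S ∈ Sy n, ∑ x : X, ∑ y : X, (if Ind2 x y ∧ x ∈ Zs J b S ∧ y ∈ Zs J b S then (1 : ℝ) else 0) := by
  obtain ⟨q, hq⟩ : ∃ q : ℝ, q = Fintype.card X := ⟨_, rfl⟩
  obtain ⟨k0, hk0⟩ : ∃ k0 : ℝ, k0 = (univ.filter fun x => J x = 0).card := ⟨_, rfl⟩
  have s0 : ∀ c : ℝ, ∑ _z : X, c = q * c := by
    intro c; rw [sum_const, card_univ, nsmul_eq_mul, hq]
  have hk : ∑ x : X, (if J x = 0 then (1 : ℝ) else 0) = k0 := by
    rw [← sum_filter, sum_const, nsmul_eq_mul, mul_one, hk0]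
  have e1 : ∑ x : X, ∑ y : X, ((if kap J b x y = 0 then (1 : ℝ) else 0) -
      (if J x = 0 then (1 : ℝ) else 0) - (if J y = 0 then (1 : ℝ) else 0) -
      (if J (x + y) = 0 then (1 : ℝ) else 0)) =
      ((q ^ 2 + (rad J b).card * q) / 2 - 3 * (k0 * q)) := by
    simp only [sum_sub_distrib]
    rw [T2_eq J b, ← hq]
    have h1 : ∑ x : X, ∑ y : X, (if J x = 0 then (1 : ℝ) else 0) = k0 * q := by
      rw [← hk, sum_mul]
      refine sum_congr rfl fun x _ => ?_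
      rw [s0, mul_comm]
    have h2 : ∑ x : X, ∑ y : X, (if J y = 0 then (1 : ℝ) else 0) = k0 * q := by
      rw [hk, s0, mul_comm]
    have h3 : ∑ x : X, ∑ y : X, (if J (x + y) = 0 then (1 : ℝ) else 0) = k0 * q := by
      rw [← h2]
      refine sum_congr rfl fun x _ => ?_
      exact Equiv.sum_comp (Equiv.addLeft x) fun y => if J y = 0 then (1 : ℝ) else 0
    rw [h1, h2, h3]
    ring
  rw [← hq, ← hk0, ← e1, sum_mul]
  rw [sum_comm (s := Sy n)]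
  refine sum_le_sum fun x _ => ?_
  rw [sum_mul, sum_comm (s := Sy n)]
  refine sum_le_sum fun y _ => ?_
  by_cases hind : Ind2 (J x) (J y)
  · have h0 : 0 ≤ ∑ S ∈ Sy n, (if Ind2 x y ∧ x ∈ Zs J b S ∧ y ∈ Zs J b S then (1 : ℝ) else 0) :=
      sum_nonneg fun S _ => by split_ifs <;> norm_num
    by_cases hkap : kap J b x y = 0
    · have hxy : Ind2 x y := ⟨fun h => hind.1 (by rw [h, map_zero]), fun h => hind.2.1 (by rw [h, map_zero]),
        fun h => hind.2.2 (by rw [h])⟩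
      have h1 : J (x + y) ≠ 0 := by
        intro h
        rw [map_add] at h
        have h2 := pi_add_self (J y)
        rw [← h] at h2
        exact hind.2.2 (add_right_cancel h2).symm
      rw [if_pos hkap, if_neg hind.1, if_neg hind.2.1, if_neg h1, sub_zero, sub_zero, sub_zero, one_mul,
        ← sum_filter, sum_const, nsmul_eq_mul, mul_one, div_le_iff₀ (by positivity)]
      have h3 := count2 (J x) (J y) (b x) (b y) hind (by
        unfold kap at hkap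
        have h4 : ∀ a c : ZMod 2, a + c = 0 → c = a := by decide
        exact h4 _ _ hkap)
      have h4 : ((Sy n).filter fun S => Ind2 x y ∧ x ∈ Zs J b S ∧ y ∈ Zs J b S) =
          (Sy n).filter fun S => S *ᵥ J x = b x ∧ S *ᵥ J y = b y := by
        ext S
        rw [mem_filter, mem_filter, mem_Zs, mem_Zs]
        exact ⟨fun h => ⟨h.1, h.2.2⟩, fun h => ⟨h.1, hxy, h.2⟩⟩
      rw [h4]
      exact_mod_cast h3.ge
    · refine le_trans ?_ h0
      rw [if_neg hkap]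
      refine mul_nonpos_of_nonpos_of_nonneg ?_ (by positivity)
      split_ifs <;> norm_num
  · have h0 : 0 ≤ ∑ S ∈ Sy n, (if Ind2 x y ∧ x ∈ Zs J b S ∧ y ∈ Zs J b S then (1 : ℝ) else 0) :=
      sum_nonneg fun S _ => by split_ifs <;> norm_num
    refine le_trans ?_ h0
    refine mul_nonpos_of_nonpos_of_nonneg ?_ (by positivity)
    have h2 : J x = 0 ∨ J y = 0 ∨ J (x + y) = 0 := by
      by_contra hcon
      push Not at hcon
      refine hind ⟨hcon.1, hcon.2.1, fun h => hcon.2.2 ?_⟩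
      rw [map_add, h, pi_add_self]
    have a1 : (if kap J b x y = 0 then (1 : ℝ) else 0) ≤ 1 := by split_ifs <;> norm_num
    have a2 : 0 ≤ (if J x = 0 then (1 : ℝ) else 0) := by split_ifs <;> norm_num
    have a3 : 0 ≤ (if J y = 0 then (1 : ℝ) else 0) := by split_ifs <;> norm_num
    have a4 : 0 ≤ (if J (x + y) = 0 then (1 : ℝ) else 0) := by split_ifs <;> norm_num
    rcases h2 with h2 | h2 | h2
    · rw [if_pos h2] at *; linarith
    · rw [if_pos h2] at *; linarith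
    · rw [if_pos h2] at *; linarith

/-- the bound `μ - μ² / 3 + μ³ / 21` -/
noncomputable def hh (μ : ℝ) : ℝ := μ - μ ^ 2 / 3 + μ ^ 3 / 21

theorem hh_mono {a c : ℝ} (h0 : 0 ≤ a) (h : a ≤ c) (h1 : c ≤ 1) : hh a ≤ hh c := by
  unfold hh
  have h2 : 0 ≤ (c - a) * (1 - (c + a) / 3) := mul_nonneg (by linarith) (by linarith)
  have h3 : a ^ 3 ≤ c ^ 3 := pow_le_pow_left₀ h0 h 3
  nlinarith

open Classical in
/-- the share of the symmetric matrices with a nonzero solution -/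
theorem bound (hJb : ∀ x, J x = 0 → b x = 0 → x = 0) (hX : (Fintype.card X : ℝ) ≤ 2 ^ n) :
    (((Sy n).filter fun S => ∃ x : X, x ≠ 0 ∧ S *ᵥ J x = b x).card : ℝ) ≤
      (hh ((Fintype.card X : ℝ) / 2 ^ n) + 2 * (univ.filter fun x => J x = 0).card / 2 ^ n) *
        (Sy n).card := by
  have hpt : ∀ S : Matrix (Fin n) (Fin n) (ZMod 2),
      (if ∃ x : X, x ≠ 0 ∧ S *ᵥ J x = b x then (1 : ℝ) else 0) ≤
      ∑ x : X, (if x ≠ 0 ∧ x ∈ Zs J b S then (1 : ℝ) else 0) -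
      (∑ x : X, ∑ y : X, (if Ind2 x y ∧ x ∈ Zs J b S ∧ y ∈ Zs J b S then (1 : ℝ) else 0)) / 3 +
      (∑ x : X, ∑ y : X, ∑ z : X,
      (if Ind3 x y z ∧ x ∈ Zs J b S ∧ y ∈ Zs J b S ∧ z ∈ Zs J b S then (1 : ℝ) else 0)) / 21 := by
    intro S
    rw [I1_eq, I2_eq, I3_eq]
    refine le_trans (le_of_eq ?_) (poly_ge (card_Zs J b S))
    congr 1
    rw [eq_iff_iff]
    constructor
    · rintro ⟨x, hx, hxS⟩
      rw [one_lt_card]
      exact ⟨x, (mem_Zs J b).2 hxS, 0, zero_mem_Zs J b S, hx⟩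
    · intro h
      rw [one_lt_card] at h
      obtain ⟨x, hx, y, hy, hxy⟩ := h
      by_cases h0 : x = 0
      · exact ⟨y, fun h => hxy (h0.trans h.symm), (mem_Zs J b).1 hy⟩
      · exact ⟨x, h0, (mem_Zs J b).1 hx⟩
  have h1 := mom1 J b hJb
  have h2 := mom2 J b
  have h3 := mom3 J b hJb
  have h4 : (((Sy n).filter fun S => ∃ x : X, x ≠ 0 ∧ S *ᵥ J x = b x).card : ℝ) =
      ∑ S ∈ Sy n, (if ∃ x : X, x ≠ 0 ∧ S *ᵥ J x = b x then (1 : ℝ) else 0) := by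
    rw [← sum_filter, sum_const, nsmul_eq_mul, mul_one]
  have h5 := sum_le_sum fun S (_ : S ∈ Sy n) => hpt S
  rw [sum_add_distrib, sum_sub_distrib, ← sum_div, ← sum_div] at h5
  rw [h4]
  refine h5.trans ?_
  obtain ⟨q, hq⟩ : ∃ q : ℝ, q = Fintype.card X := ⟨_, rfl⟩
  obtain ⟨k0, hk0⟩ : ∃ k0 : ℝ, k0 = (univ.filter fun x => J x = 0).card := ⟨_, rfl⟩
  obtain ⟨R, hR⟩ : ∃ R : ℝ, R = (rad J b).card := ⟨_, rfl⟩
  obtain ⟨s, hs⟩ : ∃ s : ℝ, s = (Sy n).card := ⟨_, rfl⟩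
  obtain ⟨Q, hQ⟩ : ∃ Q : ℝ, Q = 2 ^ n := ⟨_, rfl⟩
  have hQ0 : 0 < Q := by rw [hQ]; positivity
  have hq0 : 0 ≤ q := by rw [hq]; positivity
  have hR0 : 0 ≤ R := by rw [hR]; positivity
  have hs0 : 0 ≤ s := by rw [hs]; positivity
  have hk00 : 0 ≤ k0 := by rw [hk0]; positivity
  rw [← hq, ← hs, ← hQ] at h1
  rw [← hq, ← hk0, ← hR, ← hs, ← hQ] at h2
  rw [← hq, ← hR, ← hs, ← hQ] at h3
  rw [← hq, ← hQ] at hX
  rw [← hq, ← hk0, ← hs, ← hQ]
  obtain ⟨μ, hμ⟩ : ∃ μ : ℝ, μ = q / Q := ⟨_, rfl⟩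
  obtain ⟨ρ, hρ⟩ : ∃ ρ : ℝ, ρ = R / Q := ⟨_, rfl⟩
  obtain ⟨κ, hκ⟩ : ∃ κ : ℝ, κ = k0 / Q := ⟨_, rfl⟩
  have hμ1 : μ ≤ 1 := by rw [hμ, div_le_one hQ0]; exact hX
  have hμ0 : 0 ≤ μ := by rw [hμ]; positivity
  have hρ0 : 0 ≤ ρ := by rw [hρ]; positivity
  have hκ0 : 0 ≤ κ := by rw [hκ]; positivity
  have g1 : q * (s / Q) = s * μ := by rw [hμ]; ring
  have g2 : ((q ^ 2 + R * q) / 2 - 3 * (k0 * q)) * (s * 2 / (Q * Q)) = s * (μ ^ 2 + ρ * μ - 6 * (κ * μ)) := by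
    rw [hμ, hρ, hκ]; field_simp; ring
  have g3 : (q ^ 3 + 7 * (R * q ^ 2)) / 8 * (s * 8 / (Q * Q * Q)) = s * (μ ^ 3 + 7 * (ρ * μ ^ 2)) := by
    rw [hμ, hρ]; field_simp
  have g4 : 2 * k0 / Q = 2 * κ := by rw [hκ]; ring
  rw [g1] at h1
  rw [g2] at h2
  rw [g3] at h3
  rw [← hμ, g4]
  have h6 : s * μ - s * (μ ^ 2 + ρ * μ - 6 * (κ * μ)) / 3 + s * (μ ^ 3 + 7 * (ρ * μ ^ 2)) / 21 ≤
      (hh μ + 2 * κ) * s := by
    unfold hh
    have h7 : 0 ≤ s * (ρ * (μ * (1 - μ))) :=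
      mul_nonneg hs0 (mul_nonneg hρ0 (mul_nonneg hμ0 (by linarith)))
    have h8 : 0 ≤ s * (κ * (1 - μ)) := mul_nonneg hs0 (mul_nonneg hκ0 (by linarith))
    nlinarith
  linarith

end Pool.Agent.Q1.LK
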