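import Pool.Agent.Q1.LK.Sym

/-!
# Project LK: moments of the kernel of a random symmetric matrix plus a fixed linear map
-/

set_option autoImplicit false
set_option linter.unusedSectionVars false

namespace Pool.Agent.Q1.LK

open Finset Matrix

/-- the nontrivial character of `F_2` -/
noncomputable def chi (a : ZMod 2) : ℝ := if a = 0 then 1 else -1

theorem chi_zero : chi 0 = 1 := by unfold chi; rw [if_pos rfl]

theorem chi_one : chi 1 = -1 := by
  unfold chi; rw [if_neg (by decide)]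

theorem zmod2_cases (a : ZMod 2) : a = 0 ∨ a = 1 := by
  revert a; decide

theorem chi_add (a b : ZMod 2) : chi (a + b) = chi a * chi b := by
  have h : (1 : ZMod 2) + 1 = 0 := by decide
  rcases zmod2_cases a with rfl | rfl <;> rcases zmod2_cases b with rfl | rfl <;>
    simp [chi_zero, chi_one, h]

theorem ind_chi (a : ZMod 2) : (if a = 0 then (1 : ℝ) else 0) = (1 + chi a) / 2 := by
  rcases zmod2_cases a with rfl | rfl
  · rw [if_pos rfl, chi_zero]; norm_num
  · rw [if_neg (by decide), chi_one]; norm_num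

section

variable {n : ℕ} {X : Type} [Fintype X] [DecidableEq X] [AddCommGroup X] [Module (ZMod 2) X]

theorem add_self' (x : X) : x + x = 0 := by
  have h : (1 : ZMod 2) + 1 = 0 := by decide
  rw [← one_smul (ZMod 2) x, ← add_smul, h, zero_smul]

theorem sum_chi (l : X → ZMod 2) (hl : ∀ x y, l (x + y) = l x + l y) :
    ∑ x, chi (l x) = if ∀ x, l x = 0 then (Fintype.card X : ℝ) else 0 := by
  split_ifs with h
  · rw [sum_congr rfl fun x _ => by rw [h x, chi_zero], sum_const, card_univ, nsmul_eq_mul, mul_one]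
  · push Not at h
    obtain ⟨x0, hx0⟩ := h
    have hx1 : l x0 = 1 := (zmod2_cases _).resolve_left hx0
    have h1 : ∑ x, chi (l x) = ∑ x, chi (l (x + x0)) :=
      (Equiv.sum_comp (Equiv.addRight x0) fun x => chi (l x)).symm
    have h2 : ∑ x, chi (l (x + x0)) = - ∑ x, chi (l x) := by
      rw [← sum_neg_distrib]
      refine sum_congr rfl fun x _ => ?_
      rw [hl, chi_add, hx1, chi_one]
      ring
    linarith

variable (J b : X →ₗ[ZMod 2] (Fin n → ZMod 2))

/-- solutions -/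
def Zs (S : Matrix (Fin n) (Fin n) (ZMod 2)) : Finset X := univ.filter fun x => S *ᵥ J x = b x

/-- the alternating form -/
def kap (x y : X) : ZMod 2 := J y ⬝ᵥ b x + J x ⬝ᵥ b y

theorem kap_comm (x y : X) : kap J b x y = kap J b y x := by
  unfold kap; rw [add_comm]

theorem kap_self (x : X) : kap J b x x = 0 := zmod2_add_self _

theorem kap_add (x y z : X) : kap J b x (y + z) = kap J b x y + kap J b x z := by
  unfold kap
  rw [map_add, map_add, add_dotProduct, dotProduct_add]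
  ring

theorem kap_add' (x y z : X) : kap J b (x + y) z = kap J b x z + kap J b y z := by
  rw [kap_comm, kap_add, kap_comm J b z x, kap_comm J b z y]

/-- the radical -/
def rad : Finset X := univ.filter fun x => ∀ y, kap J b x y = 0

theorem sum_kap (x : X) : ∑ y, chi (kap J b x y) =
    if x ∈ rad J b then (Fintype.card X : ℝ) else 0 := by
  rw [sum_chi (fun y => kap J b x y) (kap_add J b x)]
  have : x ∈ rad J b ↔ ∀ y, kap J b x y = 0 := by
    rw [rad, mem_filter]; exact ⟨fun h => h.2, fun h => ⟨mem_univ _, h⟩⟩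
  by_cases h : ∀ y, kap J b x y = 0
  · rw [if_pos h, if_pos (this.2 h)]
  · rw [if_neg h, if_neg (fun h' => h (this.1 h'))]

theorem sum2 : ∑ x, ∑ y, chi (kap J b x y) = (rad J b).card * (Fintype.card X : ℝ) := by
  rw [sum_congr rfl fun x _ => sum_kap J b x, ← sum_filter, sum_const, nsmul_eq_mul]
  congr 2
  congr 1
  ext x
  simp

/-- the number of the pairs with `κ = 0` -/
theorem T2_eq : ∑ x, ∑ y, (if kap J b x y = 0 then (1 : ℝ) else 0) =
    ((Fintype.card X : ℝ) ^ 2 + (rad J b).card * (Fintype.card X : ℝ)) / 2 := by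
  have h := sum2 J b
  simp only [ind_chi]
  rw [← h]
  have h1 : ∑ x : X, ∑ y : X, (1 : ℝ) = (Fintype.card X : ℝ) ^ 2 := by
    simp [sq]
  rw [← h1, ← sum_add_distrib, sum_div]
  refine sum_congr rfl fun x _ => ?_
  rw [← sum_add_distrib, sum_div]

/-- the number of the triples with `κ = 0` -/
theorem T3_eq : ∑ x, ∑ y, ∑ z, ((if kap J b x y = 0 then (1 : ℝ) else 0) *
      (if kap J b x z = 0 then (1 : ℝ) else 0) * (if kap J b y z = 0 then (1 : ℝ) else 0)) =
    ((Fintype.card X : ℝ) ^ 3 + 7 * ((rad J b).card * (Fintype.card X : ℝ) ^ 2)) / 8 := by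
  obtain ⟨q, hq⟩ : ∃ q : ℝ, q = Fintype.card X := ⟨_, rfl⟩
  obtain ⟨A, hA⟩ : ∃ A : ℝ, A = ∑ x, ∑ y, chi (kap J b x y) := ⟨_, rfl⟩
  have hA' := sum2 J b
  rw [← hA, ← hq] at hA'
  have e : ∀ x y z : X, ((if kap J b x y = 0 then (1 : ℝ) else 0) *
      (if kap J b x z = 0 then (1 : ℝ) else 0) * (if kap J b y z = 0 then (1 : ℝ) else 0)) =
      (1 + chi (kap J b x y) + chi (kap J b x z) + chi (kap J b y z) +
        chi (kap J b x (y + z)) + chi (kap J b y (x + z)) + chi (kap J b z (x + y)) +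
        chi (kap J b (x + y) (y + z))) / 8 := by
    intro x y z
    rw [ind_chi, ind_chi, ind_chi, kap_add, kap_add, kap_add, kap_add, kap_add', kap_add', kap_self,
      kap_comm J b y x, kap_comm J b z x, kap_comm J b z y]
    simp only [chi_add, chi_zero]
    ring
  simp only [e]
  have s0 : ∀ c : ℝ, ∑ _z : X, c = q * c := by
    intro c; rw [sum_const, card_univ, nsmul_eq_mul, hq]
  have h1 : ∑ x : X, ∑ y : X, ∑ z : X, (1 : ℝ) = q ^ 3 := by
    simp only [s0]; ring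
  have h2 : ∑ x : X, ∑ y : X, ∑ z : X, chi (kap J b x y) = q * A := by
    rw [hA, mul_sum]
    refine sum_congr rfl fun x _ => ?_
    rw [mul_sum]
    exact sum_congr rfl fun y _ => s0 _
  have h3 : ∑ x : X, ∑ y : X, ∑ z : X, chi (kap J b x z) = q * A := by
    rw [hA, mul_sum]
    refine sum_congr rfl fun x _ => ?_
    exact s0 _
  have h4 : ∑ x : X, ∑ y : X, ∑ z : X, chi (kap J b y z) = q * A := by
    rw [hA]
    exact s0 _
  have h5 : ∑ x : X, ∑ y : X, ∑ z : X, chi (kap J b x (y + z)) = q * A := by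
    rw [← h3]
    refine sum_congr rfl fun x _ => sum_congr rfl fun y _ => ?_
    exact Equiv.sum_comp (Equiv.addLeft y) fun z => chi (kap J b x z)
  have h6 : ∑ x : X, ∑ y : X, ∑ z : X, chi (kap J b y (x + z)) = q * A := by
    rw [← h4]
    refine sum_congr rfl fun x _ => sum_congr rfl fun y _ => ?_
    exact Equiv.sum_comp (Equiv.addLeft x) fun z => chi (kap J b y z)
  have h7 : ∑ x : X, ∑ y : X, ∑ z : X, chi (kap J b z (x + y)) = q * A := by
    have h8 : ∑ x : X, ∑ y : X, ∑ z : X, chi (kap J b z (x + y)) =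
        ∑ x : X, ∑ y : X, ∑ z : X, chi (kap J b z y) := by
      refine sum_congr rfl fun x _ => ?_
      exact Equiv.sum_comp (Equiv.addLeft x) fun y => ∑ z, chi (kap J b z y)
    rw [h8, ← h4]
    refine sum_congr rfl fun x _ => sum_congr rfl fun y _ => sum_congr rfl fun z _ => ?_
    rw [kap_comm]
  have h8 : ∑ x : X, ∑ y : X, ∑ z : X, chi (kap J b (x + y) (y + z)) = q * A := by
    rw [sum_comm]
    have h9 : ∀ y : X, ∑ x : X, ∑ z : X, chi (kap J b (x + y) (y + z)) = A := by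
      intro y
      rw [hA]
      rw [← Equiv.sum_comp (Equiv.addRight y) fun x => ∑ z, chi (kap J b x z)]
      refine sum_congr rfl fun x _ => ?_
      exact Equiv.sum_comp (Equiv.addLeft y) fun z => chi (kap J b (x + y) z)
    rw [sum_congr rfl fun y _ => h9 y, s0]
  rw [← hq]
  have h10 : ∑ x : X, ∑ y : X, ∑ z : X, (1 + chi (kap J b x y) + chi (kap J b x z) + chi (kap J b y z) +
        chi (kap J b x (y + z)) + chi (kap J b y (x + z)) + chi (kap J b z (x + y)) +
        chi (kap J b (x + y) (y + z))) / 8 = (q ^ 3 + 7 * (q * A)) / 8 := by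
    simp only [← sum_div, sum_add_distrib]
    rw [h1, h2, h3, h4, h5, h6, h7, h8]
    ring
  rw [h10, hA']
  ring


theorem mem_Zs {S : Matrix (Fin n) (Fin n) (ZMod 2)} {x : X} : x ∈ Zs J b S ↔ S *ᵥ J x = b x := by
  rw [Zs, mem_filter]
  exact ⟨fun h => h.2, fun h => ⟨mem_univ _, h⟩⟩

/-- the solutions form a subspace -/
def Zsub (S : Matrix (Fin n) (Fin n) (ZMod 2)) : Submodule (ZMod 2) X where
  carrier := {x | S *ᵥ J x = b x}
  zero_mem' := by
    show S *ᵥ J 0 = b 0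
    rw [map_zero, map_zero, mulVec_zero]
  add_mem' := by
    intro x y hx hy
    show S *ᵥ J (x + y) = b (x + y)
    rw [map_add, map_add, mulVec_add]
    exact congrArg₂ _ hx hy
  smul_mem' := by
    intro c x hx
    show S *ᵥ J (c • x) = b (c • x)
    rw [map_smul, map_smul, mulVec_smul]
    exact congrArg _ hx

theorem card_Zs (S : Matrix (Fin n) (Fin n) (ZMod 2)) : ∃ r : ℕ, (Zs J b S).card = 2 ^ r := by
  classical
  have h1 := Module.card_eq_pow_finrank (K := ZMod 2) (V := Zsub J b S)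
  rw [ZMod.card] at h1
  refine ⟨_, Eq.trans ?_ h1⟩
  rw [Fintype.card_subtype]
  congr 1
  ext x
  rw [mem_Zs, mem_filter]
  exact ⟨fun h => ⟨mem_univ _, h⟩, fun h => h.2⟩

theorem zero_mem_Zs (S : Matrix (Fin n) (Fin n) (ZMod 2)) : (0 : X) ∈ Zs J b S := by
  rw [mem_Zs, map_zero, map_zero, mulVec_zero]

theorem add_mem_Zs {S : Matrix (Fin n) (Fin n) (ZMod 2)} {x y : X} (hx : x ∈ Zs J b S)
    (hy : y ∈ Zs J b S) : x + y ∈ Zs J b S := by
  rw [mem_Zs] at *
  rw [map_add, map_add, mulVec_add, hx, hy]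

theorem poly_ge {N : ℕ} (h : ∃ r : ℕ, N = 2 ^ r) :
    (if 1 < N then (1 : ℝ) else 0) ≤ ((N : ℝ) - 1) - ((N : ℝ) - 1) * ((N : ℝ) - 2) / 3 +
      ((N : ℝ) - 1) * ((N : ℝ) - 2) * ((N : ℝ) - 4) / 21 := by
  obtain ⟨r, hr⟩ := h
  rcases r with _ | _ | _ | r
  · subst hr
    norm_num
  · subst hr
    norm_num
  · subst hr
    norm_num
  · have h8 : 8 ≤ N := by
      rw [hr, pow_add]
      have := Nat.one_le_two_pow (n := r)
      omega
    rw [if_pos (by omega)]
    have h9 : (8 : ℝ) ≤ N := by exact_mod_cast h8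
    have h10 : ((N : ℝ) - 1) - ((N : ℝ) - 1) * ((N : ℝ) - 2) / 3 +
      ((N : ℝ) - 1) * ((N : ℝ) - 2) * ((N : ℝ) - 4) / 21 =
      ((N : ℝ) - 1) * ((N : ℝ) ^ 2 - 13 * N + 43) / 21 := by ring
    rw [h10, le_div_iff₀ (by norm_num)]
    nlinarith [mul_nonneg (by linarith : (0 : ℝ) ≤ (N : ℝ) - 8) (by linarith : (0 : ℝ) ≤ (N : ℝ) - 8),
      mul_nonneg (mul_nonneg (by linarith : (0 : ℝ) ≤ (N : ℝ) - 8) (by linarith : (0 : ℝ) ≤ (N : ℝ) - 8))
      (by linarith : (0 : ℝ) ≤ (N : ℝ) - 8)]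

open Classical in
theorem I1_eq (S : Matrix (Fin n) (Fin n) (ZMod 2)) :
    ∑ x : X, (if x ≠ 0 ∧ x ∈ Zs J b S then (1 : ℝ) else 0) = ((Zs J b S).card : ℝ) - 1 := by
  rw [← sum_filter, sum_const, nsmul_eq_mul, mul_one]
  have h : (univ.filter fun x : X => x ≠ 0 ∧ x ∈ Zs J b S) = (Zs J b S).erase 0 := by
    ext x
    rw [mem_filter, mem_erase]
    exact ⟨fun h => h.2, fun h => ⟨mem_univ _, h⟩⟩
  rw [h, card_erase_of_mem (zero_mem_Zs J b S), Nat.cast_sub (card_pos.2 ⟨0, zero_mem_Zs J b S⟩)]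
  norm_num

open Classical in
theorem I2_eq (S : Matrix (Fin n) (Fin n) (ZMod 2)) :
    ∑ x : X, ∑ y : X, (if Ind2 x y ∧ x ∈ Zs J b S ∧ y ∈ Zs J b S then (1 : ℝ) else 0) =
      (((Zs J b S).card : ℝ) - 1) * (((Zs J b S).card : ℝ) - 2) := by
  rw [← I1_eq J b S, sum_mul]
  refine sum_congr rfl fun x _ => ?_
  by_cases hx : x ≠ 0 ∧ x ∈ Zs J b S
  · rw [if_pos hx, one_mul, ← sum_filter, sum_const, nsmul_eq_mul, mul_one]
    have h : (univ.filter fun y : X => Ind2 x y ∧ x ∈ Zs J b S ∧ y ∈ Zs J b S) =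
        ((Zs J b S).erase 0).erase x := by
      ext y
      rw [mem_filter, mem_erase, mem_erase]
      unfold Ind2
      constructor
      · rintro ⟨-, ⟨h1, h2, h3⟩, -, h4⟩
        exact ⟨fun h => h3 h.symm, h2, h4⟩
      · rintro ⟨h1, h2, h3⟩
        exact ⟨mem_univ _, ⟨hx.1, h2, fun h => h1 h.symm⟩, hx.2, h3⟩
    have h0 : x ∈ (Zs J b S).erase 0 := mem_erase.2 hx
    rw [h, card_erase_of_mem h0, Nat.cast_sub (card_pos.2 ⟨x, h0⟩),
      card_erase_of_mem (zero_mem_Zs J b S), Nat.cast_sub (card_pos.2 ⟨0, zero_mem_Zs J b S⟩)]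
    push_cast
    ring
  · rw [if_neg hx, zero_mul]
    refine sum_eq_zero fun y _ => ?_
    rw [if_neg]
    rintro ⟨h1, h2, -⟩
    exact hx ⟨h1.1, h2⟩

open Classical in
theorem I3_eq (S : Matrix (Fin n) (Fin n) (ZMod 2)) :
    ∑ x : X, ∑ y : X, ∑ z : X,
      (if Ind3 x y z ∧ x ∈ Zs J b S ∧ y ∈ Zs J b S ∧ z ∈ Zs J b S then (1 : ℝ) else 0) =
      (((Zs J b S).card : ℝ) - 1) * (((Zs J b S).card : ℝ) - 2) * (((Zs J b S).card : ℝ) - 4) := by
  rw [← I2_eq J b S, sum_mul]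
  refine sum_congr rfl fun x _ => ?_
  rw [sum_mul]
  refine sum_congr rfl fun y _ => ?_
  by_cases hx : Ind2 x y ∧ x ∈ Zs J b S ∧ y ∈ Zs J b S
  · rw [if_pos hx, one_mul, ← sum_filter, sum_const, nsmul_eq_mul, mul_one]
    obtain ⟨⟨hx0, hy0, hxy⟩, hxZ, hyZ⟩ := hx
    have h : (univ.filter fun z : X => Ind3 x y z ∧ x ∈ Zs J b S ∧ y ∈ Zs J b S ∧ z ∈ Zs J b S) =
        ((((Zs J b S).erase 0).erase x).erase y).erase (x + y) := by
      ext z
      rw [mem_filter, mem_erase, mem_erase, mem_erase, mem_erase]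
      unfold Ind3
      constructor
      · rintro ⟨-, ⟨-, h1, h2, h3, h4⟩, -, -, h5⟩
        exact ⟨h4, h3, h2, h1, h5⟩
      · rintro ⟨h4, h3, h2, h1, h5⟩
        exact ⟨mem_univ _, ⟨⟨hx0, hy0, hxy⟩, h1, h2, h3, h4⟩, hxZ, hyZ, h5⟩
    have m1 : x ∈ (Zs J b S).erase 0 := mem_erase.2 ⟨hx0, hxZ⟩
    have m2 : y ∈ ((Zs J b S).erase 0).erase x := mem_erase.2 ⟨hxy.symm, mem_erase.2 ⟨hy0, hyZ⟩⟩
    have m3 : x + y ∈ (((Zs J b S).erase 0).erase x).erase y := by
      refine mem_erase.2 ⟨fun h => hx0 (by simpa using h), mem_erase.2 ⟨fun h => hy0 (by simpa using h),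
        mem_erase.2 ⟨fun h => hxy ?_, add_mem_Zs J b hxZ hyZ⟩⟩⟩
      have h1 := add_self' x
      have h2 : x + x = x + y := by rw [h1, h]
      exact add_left_cancel h2
    rw [h, card_erase_of_mem m3, Nat.cast_sub (card_pos.2 ⟨_, m3⟩), card_erase_of_mem m2,
      Nat.cast_sub (card_pos.2 ⟨_, m2⟩), card_erase_of_mem m1, Nat.cast_sub (card_pos.2 ⟨_, m1⟩),
      card_erase_of_mem (zero_mem_Zs J b S), Nat.cast_sub (card_pos.2 ⟨0, zero_mem_Zs J b S⟩)]
    push_cast
    ring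
  · rw [if_neg hx, zero_mul]
    refine sum_eq_zero fun z _ => ?_
    rw [if_neg]
    rintro ⟨h1, h2, h3, -⟩
    exact hx ⟨h1.1, h2, h3⟩

end

end Pool.Agent.Q1.LK
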