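import Pool.Agent.Q1.LK.Sg0
import Pool.Agent.Q7.SG.Stm

/-!
# The `Σ`-Leopoldt conjecture, `p = 2`: from `ℂ_2`-relations to `2`-adic relations (job A)
-/

set_option autoImplicit false
set_option linter.unusedSectionVars false

namespace Pool.Agent.Q1.LK

open NumberField Module Filter Topology Finset
open Pool.Agent.W289.SL Pool.Agent.Y419.LC.LcpP

/-- the solutions of linear equations over an extension field -/
theorem sol_descent {k l : Type} [Field k] [Field l] [Algebra k l] {r t : ℕ} {μ : Type} (d : Fin r → μ → k)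
    (A : Fin t → Fin r → l) (hA : LinearIndependent l A)
    (h : ∀ s m, ∑ i, A s i * algebraMap k l (d i m) = 0) :
    ∃ b : Fin t → Fin r → k, LinearIndependent k b ∧ ∀ s m, ∑ i, b s i * d i m = 0 := by
  classical
  let V : Submodule k (Fin r → k) :=
    { carrier := {b | ∀ m, ∑ i, b i * d i m = 0}
      add_mem' := by
        intro a b ha hb m
        simp only [Pi.add_apply, add_mul, Finset.sum_add_distrib]
        rw [ha m, hb m, add_zero]
      zero_mem' := by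
        intro m
        simp
      smul_mem' := by
        intro c b hb m
        simp only [Pi.smul_apply, smul_eq_mul, mul_assoc, ← Finset.mul_sum]
        rw [hb m, mul_zero] }
  let j : (Fin r → k) → (Fin r → l) := fun b i => algebraMap k l (b i)
  let β := Module.Basis.ofVectorSpace k l
  let v := Module.finBasis k V
  set W : Submodule l (Fin r → l) := Submodule.span l (Set.range fun x => j (v x : Fin r → k)) with hW
  -- the image of `V` lies in `W`
  have hVW : ∀ b : Fin r → k, b ∈ V → j b ∈ W := by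
    intro b hb
    have h1 : b = ∑ x, v.repr ⟨b, hb⟩ x • ((v x : V) : Fin r → k) := by
      have h2 := congrArg (fun y : V => (y : Fin r → k)) (v.sum_repr ⟨b, hb⟩)
      simp only [Submodule.coe_sum, Submodule.coe_smul] at h2
      exact h2.symm
    have h2 : j b = ∑ x, algebraMap k l (v.repr ⟨b, hb⟩ x) • j ((v x : V) : Fin r → k) := by
      funext i
      have h3 := congrFun h1 i
      rw [Finset.sum_apply] at h3
      show algebraMap k l (b i) = _
      rw [h3, map_sum, Finset.sum_apply]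
      refine Finset.sum_congr rfl fun x _ => ?_
      simp only [Pi.smul_apply, smul_eq_mul, map_mul, j]
    rw [h2]
    exact Submodule.sum_mem _ fun x _ => Submodule.smul_mem _ _ (Submodule.subset_span ⟨x, rfl⟩)
  -- the solutions lie in `W`
  have hAW : ∀ s, A s ∈ W := by
    intro s
    set T : Finset _ := Finset.univ.biUnion fun i : Fin r => (β.repr (A s i)).support with hT
    have h1 : ∀ i, A s i = ∑ x ∈ T, algebraMap k l (β.repr (A s i) x) * β x := by
      intro i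
      have h2 := β.linearCombination_repr (A s i)
      rw [Finsupp.linearCombination_apply, Finsupp.sum] at h2
      conv_lhs => rw [← h2]
      have h3 : ∑ x ∈ (β.repr (A s i)).support, (β.repr (A s i)) x • β x =
          ∑ x ∈ T, (β.repr (A s i)) x • β x := by
        apply Finset.sum_subset
        · intro x hx
          rw [hT, Finset.mem_biUnion]
          exact ⟨i, Finset.mem_univ _, hx⟩
        · intro x _ hx
          rw [Finsupp.notMem_support_iff.1 hx, zero_smul]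
      rw [h3]
      refine Finset.sum_congr rfl fun x _ => ?_
      rw [Algebra.smul_def]
    have h2 : ∀ x, (fun i => β.repr (A s i) x) ∈ V := by
      intro x m
      have h3 := congrArg (fun y => β.repr y x) (h s m)
      simp only [map_zero, Finsupp.coe_zero, Pi.zero_apply, map_sum, Finsupp.finsetSum_apply] at h3
      rw [← h3]
      refine Finset.sum_congr rfl fun i _ => ?_
      rw [mul_comm (A s i), ← Algebra.smul_def, map_smul, Finsupp.smul_apply, smul_eq_mul, mul_comm]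
    have h3 : A s = ∑ x ∈ T, β x • j (fun i => β.repr (A s i) x) := by
      funext i
      rw [Finset.sum_apply]
      conv_lhs => rw [h1 i]
      refine Finset.sum_congr rfl fun x _ => ?_
      simp only [Pi.smul_apply, smul_eq_mul, j]
      rw [mul_comm]
    rw [h3]
    exact Submodule.sum_mem _ fun x _ => Submodule.smul_mem _ _ (hVW _ (h2 x))
  -- the dimensions
  have hle : t ≤ finrank k V := by
    let A' : Fin t → W := fun s => ⟨A s, hAW s⟩
    have h1 : LinearIndependent l A' := by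
      apply LinearIndependent.of_comp W.subtype
      exact hA
    have h2 := h1.fintype_card_le_finrank
    rw [Fintype.card_fin] at h2
    have h3 : finrank l W ≤ finrank k V := by
      have h4 := finrank_range_le_card (R := l) (fun x => j (v x : Fin r → k))
      rwa [Fintype.card_fin] at h4
    exact h2.trans h3
  refine ⟨fun s => ((v (Fin.castLE hle s) : V) : Fin r → k), ?_, fun s m => (v (Fin.castLE hle s)).2 m⟩
  have h1 : LinearIndependent k (fun x => ((v x : V) : Fin r → k)) :=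
    v.linearIndependent.map' V.subtype (Submodule.ker_subtype V)
  exact h1.comp _ (Fin.castLE_injective hle)

section

variable {E : Type} [Field E] [NumberField E]

open Classical in
/-- the logarithms at the embeddings above `J` and their coordinates -/
theorem exists_d {L : ℂ_[2] → ℂ_[2]} (hL : IsIwasawaLog 2 L) (J : Ideal (𝓞 E)) (ε y : 𝓞 E)
    (hy : ε = 1 + ((2 : ℕ) : 𝓞 E) ^ 4 * y) : ∃ d : Pool.Agent.Y419.LC.LcpP.J E → ℚ_[2], ∀ σ : E →+* ℂ_[2],
      ∑ m, algebraMap ℚ_[2] ℂ_[2] (d m) * σ ((om E m : 𝓞 E) : E) = if Ab J σ then L (σ ((ε : 𝓞 E) : E)) else 0 := by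
  obtain ⟨c, hc⟩ := exists_c hL ε y hy
  obtain ⟨e, he⟩ := idem J
  refine ⟨fun m => ∑ j, ∑ l, e j * c l * (((om E).repr (om E j * om E l) m : ℤ) : ℚ_[2]), fun σ => ?_⟩
  have h1 : ∀ j l, σ ((om E j : 𝓞 E) : E) * σ ((om E l : 𝓞 E) : E) =
      ∑ m, (((om E).repr (om E j * om E l) m : ℤ) : ℂ_[2]) * σ ((om E m : 𝓞 E) : E) := by
    intro j l
    rw [← emb_coord σ (om E j * om E l)]
    simp only [map_mul]
  calc ∑ m, algebraMap ℚ_[2] ℂ_[2] (∑ j, ∑ l, e j * c l * (((om E).repr (om E j * om E l) m : ℤ) : ℚ_[2])) *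
        σ ((om E m : 𝓞 E) : E) = ∑ m, ∑ j, ∑ l, (algebraMap ℚ_[2] ℂ_[2] (e j) * algebraMap ℚ_[2] ℂ_[2] (c l) *
          (((om E).repr (om E j * om E l) m : ℤ) : ℂ_[2])) * σ ((om E m : 𝓞 E) : E) := by
        refine Finset.sum_congr rfl fun m _ => ?_
        rw [map_sum, Finset.sum_mul]
        refine Finset.sum_congr rfl fun j _ => ?_
        rw [map_sum, Finset.sum_mul]
        refine Finset.sum_congr rfl fun l _ => ?_
        rw [map_mul, map_mul, map_intCast]
    _ = ∑ j, ∑ l, ∑ m, (algebraMap ℚ_[2] ℂ_[2] (e j) * algebraMap ℚ_[2] ℂ_[2] (c l) *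
          (((om E).repr (om E j * om E l) m : ℤ) : ℂ_[2])) * σ ((om E m : 𝓞 E) : E) := by
        rw [Finset.sum_comm]
        refine Finset.sum_congr rfl fun j _ => ?_
        rw [Finset.sum_comm]
    _ = ∑ j, ∑ l, (algebraMap ℚ_[2] ℂ_[2] (e j) * σ ((om E j : 𝓞 E) : E)) *
          (algebraMap ℚ_[2] ℂ_[2] (c l) * σ ((om E l : 𝓞 E) : E)) := by
        refine Finset.sum_congr rfl fun j _ => Finset.sum_congr rfl fun l _ => ?_
        have h2 : (algebraMap ℚ_[2] ℂ_[2] (e j) * σ ((om E j : 𝓞 E) : E)) *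
          (algebraMap ℚ_[2] ℂ_[2] (c l) * σ ((om E l : 𝓞 E) : E)) = algebraMap ℚ_[2] ℂ_[2] (e j) *
            algebraMap ℚ_[2] ℂ_[2] (c l) * (σ ((om E j : 𝓞 E) : E) * σ ((om E l : 𝓞 E) : E)) := by ring
        rw [h2, h1, Finset.mul_sum]
        refine Finset.sum_congr rfl fun m _ => ?_
        ring
    _ = (∑ j, algebraMap ℚ_[2] ℂ_[2] (e j) * σ ((om E j : 𝓞 E) : E)) *
          ∑ l, algebraMap ℚ_[2] ℂ_[2] (c l) * σ ((om E l : 𝓞 E) : E) := by
        rw [Finset.sum_mul_sum]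
    _ = _ := by
        rw [he σ, ← hc σ]
        split_ifs
        · rw [one_mul]
        · rw [zero_mul]

/-- the logarithm of a product of powers -/
theorem log_prod {L : ℂ_[2] → ℂ_[2]} (hL : IsIwasawaLog 2 L) (σ : E →+* ℂ_[2]) {q : ℕ} (ε : Fin q → (𝓞 E)ˣ)
    (m : Fin q → ℤ) : L (σ (((∏ i, ε i ^ m i : (𝓞 E)ˣ) : 𝓞 E) : E)) =
      ∑ i, (m i : ℂ_[2]) * L (σ ((ε i : 𝓞 E) : E)) := by
  have h2 : logHom hL σ (Additive.ofMul (∏ i, ε i ^ m i)) = ∑ i, (m i) • logHom hL σ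
      (Additive.ofMul (ε i)) := by
    rw [ofMul_prod, map_sum]
    refine Finset.sum_congr rfl fun i _ => ?_
    rw [ofMul_zpow, map_zsmul]
  have h3 : L (σ (((∏ i, ε i ^ m i : (𝓞 E)ˣ) : 𝓞 E) : E)) = logHom hL σ (Additive.ofMul (∏ i, ε i ^ m i)) := rfl
  rw [h3, h2]
  refine Finset.sum_congr rfl fun i _ => ?_
  rw [zsmul_eq_mul]
  rfl

theorem log_pow {L : ℂ_[2] → ℂ_[2]} (hL : IsIwasawaLog 2 L) (σ : E →+* ℂ_[2]) (u : (𝓞 E)ˣ) (n : ℕ) :
    L (σ (((u ^ n : (𝓞 E)ˣ) : 𝓞 E) : E)) = (n : ℂ_[2]) * L (σ ((u : 𝓞 E) : E)) := by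
  have h3 : L (σ (((u ^ n : (𝓞 E)ˣ) : 𝓞 E) : E)) = logHom hL σ (Additive.ofMul (u ^ n)) := rfl
  rw [h3, ofMul_pow, map_nsmul, nsmul_eq_mul]
  rfl

/-- a `2`-adic relation between the logarithms above `J` -/
theorem rel_of_log {L : ℂ_[2] → ℂ_[2]} (hL : IsIwasawaLog 2 L) (J : Ideal (𝓞 E)) (hJ : (2 : 𝓞 E) ∈ J) {q : ℕ}
    (ε : Fin q → (𝓞 E)ˣ) (hε : ∀ i, ε i ∈ U4 E 2) (b : Fin q → ℤ_[2])
    (hb : ∀ σ : E →+* ℂ_[2], Ab J σ → ∑ i, algebraMap ℚ_[2] ℂ_[2] (b i : ℚ_[2]) * L (σ ((ε i : 𝓞 E) : E)) = 0) :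
    Pool.Agent.Q283.LQ.Rel E J ε b := by
  have hm := fun i => exists_seq (b i)
  choose m hm using hm
  refine ⟨fun k i => m i k, hm, fun N => ?_⟩
  set u : ℕ → (𝓞 E)ˣ := fun k => ∏ i, ε i ^ m i k with hu
  have hu4 : ∀ k, u k ∈ U4 E 2 := fun k =>
    Subgroup.prod_mem _ fun i _ => Subgroup.zpow_mem _ (hε i) _
  have hlog : ∀ σ : E →+* ℂ_[2], Ab J σ → Tendsto (fun k => L (σ ((u k : 𝓞 E) : E))) atTop (𝓝 0) := by
    intro σ hσ
    have h1 : ∀ k, L (σ ((u k : 𝓞 E) : E)) = ∑ i, algebraMap ℚ_[2] ℂ_[2]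
        (((m i k : ℤ) : PadicInt 2) : ℚ_[2]) * L (σ ((ε i : 𝓞 E) : E)) := by
      intro k
      rw [hu, log_prod hL σ ε (fun i => m i k)]
      refine Finset.sum_congr rfl fun i _ => ?_
      congr 1
      simp
    simp only [h1]
    have hj : Continuous (fun x : PadicInt 2 => algebraMap ℚ_[2] ℂ_[2] (x : ℚ_[2])) :=
      (continuous_algebraMap ℚ_[2] ℂ_[2]).comp continuous_subtype_val
    rw [← hb σ hσ]
    refine tendsto_finsetSum _ fun i _ => ?_
    exact ((hj.tendsto (b i)).comp (hm i)).mul_const _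
  refine tendsto_mem J hJ (fun k => (u k : 𝓞 E) - 1) (fun σ hσ => ?_) N
  have h1 : ∀ k, ‖σ (((u k : 𝓞 E) - 1 : 𝓞 E) : E)‖ ≤ 2 * ‖L (σ ((u k : 𝓞 E) : E))‖ := by
    intro k
    obtain ⟨v, hv⟩ := (mem_U4 (u k)).1 (hu4 k)
    have h2 : ‖σ (((u k : 𝓞 E) - 1 : 𝓞 E) : E)‖ ≤ 1 / 8 := by
      rw [hv]
      have h3 : σ ((((2 : ℕ) : 𝓞 E) ^ 4 * v : 𝓞 E) : E) = ((2 : ℕ) : ℂ_[2]) ^ 4 * σ (v : E) := by
        simp only [map_mul, map_pow, map_natCast]
      rw [h3, norm_mul, norm_pow, norm_p]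
      have h4 := norm_emb_le σ v
      calc (((2 : ℕ) : ℝ)⁻¹) ^ 4 * ‖σ (v : E)‖ ≤ (((2 : ℕ) : ℝ)⁻¹) ^ 4 * 1 := by gcongr
        _ ≤ 1 / 8 := by norm_num
    have h3 := dist_le hL h2
    have h4 : 1 + σ (((u k : 𝓞 E) - 1 : 𝓞 E) : E) = σ ((u k : 𝓞 E) : E) := by
      have h5 : σ (((u k : 𝓞 E) - 1 : 𝓞 E) : E) = σ ((u k : 𝓞 E) : E) - 1 := by
        simp only [map_sub, map_one]
      rw [h5]
      ring
    rw [h4] at h3
    exact h3
  refine squeeze_zero_norm h1 ?_
  have h2 := ((hlog σ hσ).norm).const_mul 2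
  rw [norm_zero, mul_zero] at h2
  exact h2

end

/-- JOB A -/
theorem t_A : Pool.Agent.Q7.SG.S_A := by
  classical
  intro K H _ _ _ _ _ I I' hII _ L hL q θ hθ t a ha hrel
  have h2I : (2 : 𝓞 K) ∈ I := by
    have h1 : (2 : 𝓞 K) ∈ Ideal.span {(2 : 𝓞 K)} := Ideal.mem_span_singleton_self _
    rw [← hII] at h1
    exact (Ideal.mul_le_left (I := I) (J := I')) h1
  set J : Ideal (𝓞 H) := I.map (algebraMap (𝓞 K) (𝓞 H)) with hJdef
  have h2J : (2 : 𝓞 H) ∈ J := by
    have h1 := Ideal.mem_map_of_mem (algebraMap (𝓞 K) (𝓞 H)) h2I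
    rwa [map_ofNat] at h1
  have hAb : ∀ σ : H →+* ℂ_[2], Ab J σ → Pool.Agent.Q7.SG.Over I (σ.comp (algebraMap K H)) := by
    intro σ hσ x hx
    exact hσ _ (Ideal.mem_map_of_mem (algebraMap (𝓞 K) (𝓞 H)) hx)
  obtain ⟨n, hn, hnU⟩ := exists_pow_U4 H 2
  have hn' : (n : ℂ_[2]) ≠ 0 := by exact_mod_cast hn
  have hy := fun i => (mem_U4 (θ i ^ n)).1 (hnU (θ i))
  choose y hy using hy
  have hd := fun i => exists_d hL J (((θ i ^ n : (𝓞 H)ˣ)) : 𝓞 H) (y i) (by rw [← hy i]; ring)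
  choose d hd using hd
  obtain ⟨N, hN⟩ := exists_inv (p := 2) (E := H)
  have hlogn : ∀ (σ : H →+* ℂ_[2]) i, L (σ (((θ i ^ n : (𝓞 H)ˣ) : 𝓞 H) : H)) =
      (n : ℂ_[2]) * L (σ ((θ i : 𝓞 H) : H)) := fun σ i => log_pow hL σ (θ i) n
  obtain ⟨b, hb, hb2⟩ := sol_descent (k := ℚ_[2]) (l := ℂ_[2]) d a ha (by
    intro s m
    rw [hN (fun m => ∑ i, a s i * algebraMap ℚ_[2] ℂ_[2] (d i m)) m]
    refine Finset.sum_eq_zero fun σ _ => ?_
    have h3 : ∑ m, (∑ i, a s i * algebraMap ℚ_[2] ℂ_[2] (d i m)) * σ ((om H m : 𝓞 H) : H) = 0 := by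
      simp only [Finset.sum_mul]
      rw [Finset.sum_comm]
      have h4 : ∀ i, ∑ m, a s i * algebraMap ℚ_[2] ℂ_[2] (d i m) * σ ((om H m : 𝓞 H) : H) =
          a s i * (if Ab J σ then L (σ (((θ i ^ n : (𝓞 H)ˣ) : 𝓞 H) : H)) else 0) := by
        intro i
        rw [← hd i σ, Finset.mul_sum]
        refine Finset.sum_congr rfl fun m _ => ?_
        ring
      simp only [h4]
      by_cases h : Ab J σ
      · simp only [if_pos h, hlogn]
        have h5 := hrel s σ (hAb σ h)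
        calc ∑ i, a s i * ((n : ℂ_[2]) * L (σ ((θ i : 𝓞 H) : H))) =
              (n : ℂ_[2]) * ∑ i, a s i * L (σ ((θ i : 𝓞 H) : H)) := by
              rw [Finset.mul_sum]
              refine Finset.sum_congr rfl fun i _ => ?_
              ring
          _ = 0 := by rw [h5, mul_zero]
      · simp only [if_neg h, mul_zero, Finset.sum_const_zero]
    rw [h3, zero_mul])
  -- clear denominators
  obtain ⟨M, hM⟩ : ∃ M : ℕ, ∀ s i, ‖(2 : ℚ_[2]) ^ M * b s i‖ ≤ 1 := by
    have h1 : ∀ᶠ M : ℕ in atTop, ∀ s i, ‖(2 : ℚ_[2]) ^ M * b s i‖ ≤ 1 := by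
      rw [Filter.eventually_all]
      intro s
      rw [Filter.eventually_all]
      intro i
      have h2 : Tendsto (fun M : ℕ => (2 : ℚ_[2]) ^ M * b s i) atTop (𝓝 0) := by
        have h3 : ‖(2 : ℚ_[2])‖ < 1 := by
          have := Padic.norm_p_lt_one (p := 2)
          exact_mod_cast this
        have h4 := (tendsto_pow_atTop_nhds_zero_of_norm_lt_one h3).mul_const (b s i)
        rwa [zero_mul] at h4
      have h5 := h2.norm
      rw [norm_zero] at h5
      exact (h5.eventually (gt_mem_nhds one_pos)).mono fun M hM => le_of_lt hM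
    exact h1.exists
  set c : Fin t → Fin q → ℤ_[2] := fun s i => ⟨(2 : ℚ_[2]) ^ M * b s i, hM s i⟩ with hc
  have hcc : ∀ s i, ((c s i : ℤ_[2]) : ℚ_[2]) = (2 : ℚ_[2]) ^ M * b s i := fun s i => rfl
  have h20 : (2 : ℚ_[2]) ^ M ≠ 0 := pow_ne_zero _ (by norm_num)
  have hcind : LinearIndependent ℤ_[2] c := by
    rw [Fintype.linearIndependent_iff]
    intro g hg
    have h1 : ∑ s, ((g s : ℤ_[2]) : ℚ_[2]) • b s = 0 := by
      funext i
      rw [Finset.sum_apply, Pi.zero_apply]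
      have h2 := congrArg (fun z : ℤ_[2] => (z : ℚ_[2])) (congrFun hg i)
      simp only [Finset.sum_apply, Pi.smul_apply, smul_eq_mul, Pi.zero_apply, PadicInt.coe_sum, PadicInt.coe_mul,
        PadicInt.coe_zero, hcc] at h2
      have h3 : (2 : ℚ_[2]) ^ M * ∑ s, ((g s : ℤ_[2]) : ℚ_[2]) * b s i = 0 := by
        rw [Finset.mul_sum, ← h2]
        refine Finset.sum_congr rfl fun s _ => ?_
        ring
      have h4 := (mul_eq_zero.1 h3).resolve_left h20
      simpa only [Pi.smul_apply, smul_eq_mul] using h4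
    have h2 := Fintype.linearIndependent_iff.1 hb _ h1
    intro s
    exact Subtype.ext (h2 s)
  have hcrel : ∀ s, Pool.Agent.Q283.LQ.Rel H J (fun i => θ i ^ n) (c s) := by
    intro s
    apply rel_of_log hL J h2J _ (fun i => hnU (θ i))
    intro σ hσ
    have h1 : ∀ i, L (σ (((θ i ^ n : (𝓞 H)ˣ) : 𝓞 H) : H)) =
        ∑ m, algebraMap ℚ_[2] ℂ_[2] (d i m) * σ ((om H m : 𝓞 H) : H) := by
      intro i
      rw [hd i σ, if_pos hσ]
    simp only [h1, hcc]
    have h3 : ∀ i, algebraMap ℚ_[2] ℂ_[2] ((2 : ℚ_[2]) ^ M * b s i) *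
        ∑ m, algebraMap ℚ_[2] ℂ_[2] (d i m) * σ ((om H m : 𝓞 H) : H) =
        ∑ m, algebraMap ℚ_[2] ℂ_[2] ((2 : ℚ_[2]) ^ M * (b s i * d i m)) * σ ((om H m : 𝓞 H) : H) := by
      intro i
      rw [Finset.mul_sum]
      refine Finset.sum_congr rfl fun m _ => ?_
      rw [← mul_assoc, ← map_mul, mul_assoc]
    simp only [h3]
    rw [Finset.sum_comm]
    refine Finset.sum_eq_zero fun m _ => ?_
    rw [← Finset.sum_mul, ← map_sum, ← Finset.mul_sum, hb2 s m, mul_zero, map_zero, zero_mul]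
  refine ⟨fun s => (n : ℤ_[2]) • c s, ?_, fun s => ?_⟩
  · have hn2 : (n : ℤ_[2]) ≠ 0 := by exact_mod_cast hn
    rw [Fintype.linearIndependent_iff] at hcind ⊢
    intro g hg s
    have h1 := hcind (fun s => g s * (n : ℤ_[2])) (by
      rw [← hg]
      refine Finset.sum_congr rfl fun s _ => ?_
      rw [mul_smul]) s
    exact (mul_eq_zero.1 h1).resolve_right hn2
  · obtain ⟨m, hm, hm2⟩ := hcrel s
    refine ⟨fun k i => (n : ℤ) * m k i, fun i => ?_, fun N => ?_⟩
    · have h1 := (hm i).const_mul (n : ℤ_[2])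
      refine h1.congr fun k => ?_
      push_cast
      rfl
    · filter_upwards [hm2 N] with k hk
      have h2 : ∏ i, θ i ^ ((n : ℤ) * m k i) = ∏ i, (θ i ^ n) ^ m k i := by
        refine Finset.prod_congr rfl fun i _ => ?_
        rw [zpow_mul, zpow_natCast]
      rw [h2]
      exact hk

end Pool.Agent.Q1.LK
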