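import Pool.Agent.Y419.LC.LCP
import Pool.Agent.Q14.LQS.Cr1a

/-!
# The idempotent belonging to a set of places above `2`, and convergence at these places
-/

set_option autoImplicit false

namespace Pool.Agent.Q1.LK

open NumberField Module Filter Topology Finset
open Pool.Agent.W289.SL Pool.Agent.Y419.LC.LcpP

section

variable {E : Type} [Field E] [NumberField E]

/-- the embeddings whose place divides `J` -/
def Ab (J : Ideal (𝓞 E)) (σ : E →+* ℂ_[2]) : Prop := ∀ a ∈ J, ‖σ ((a : 𝓞 E) : E)‖ < 1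

theorem norm_two : ‖(2 : ℂ_[2])‖ = 1 / 2 := by
  have h := norm_p (p := 2)
  rw [Nat.cast_ofNat] at h
  rw [h]
  norm_num

theorem exists_x (J : Ideal (𝓞 E)) : ∃ x : 𝓞 E, x - 1 ∈ J ∧ ∀ σ : E →+* ℂ_[2], ¬ Ab J σ →
    ‖σ ((x : 𝓞 E) : E)‖ < 1 := by
  classical
  have hmk : ∀ y : 𝓞 E, y - 1 ∈ J ↔ Ideal.Quotient.mk J y = 1 := by
    intro y
    rw [← map_one (Ideal.Quotient.mk J), Ideal.Quotient.mk_eq_mk_iff_sub_mem]
  have h1 : ∀ σ : E →+* ℂ_[2], ∃ x : 𝓞 E, x - 1 ∈ J ∧ (¬ Ab J σ → ‖σ ((x : 𝓞 E) : E)‖ < 1) := by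
    intro σ
    by_cases h : Ab J σ
    · exact ⟨1, by simp, fun h' => absurd h h'⟩
    · have h' := h
      unfold Ab at h'
      push Not at h'
      obtain ⟨a, haJ, ha⟩ := h'
      have ha1 : ‖σ ((a : 𝓞 E) : E)‖ = 1 := le_antisymm (norm_emb_le σ a) ha
      have hfin : Finite (𝓞 E ⧸ Ideal.span {(2 : 𝓞 E)}) :=
        Ideal.finiteQuotientOfFreeOfNeBot _ (by
          rw [Ne, Ideal.span_singleton_eq_bot]
          norm_num)
      obtain ⟨i, j, hij, he⟩ := Finite.exists_ne_map_eq_of_infinite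
        (fun n : ℕ => Ideal.Quotient.mk (Ideal.span {(2 : 𝓞 E)}) (a ^ n))
      have key : ∀ i j : ℕ, i < j → Ideal.Quotient.mk (Ideal.span {(2 : 𝓞 E)}) (a ^ i) =
          Ideal.Quotient.mk (Ideal.span {(2 : 𝓞 E)}) (a ^ j) →
          ∃ x : 𝓞 E, x - 1 ∈ J ∧ (¬ Ab J σ → ‖σ ((x : 𝓞 E) : E)‖ < 1) := by
        intro i j hlt he
        rw [Ideal.Quotient.mk_eq_mk_iff_sub_mem, Ideal.mem_span_singleton] at he
        obtain ⟨y, hy⟩ := he
        obtain ⟨k, rfl⟩ : ∃ k, j = i + (k + 1) := ⟨j - i - 1, by omega⟩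
        refine ⟨1 - a ^ (k + 1), ?_, fun _ => ?_⟩
        · have e1 : 1 - a ^ (k + 1) - 1 = -(a ^ k * a) := by ring
          rw [e1]
          exact J.neg_mem (J.mul_mem_left _ haJ)
        · have e2 : a ^ i * (1 - a ^ (k + 1)) = 2 * y := by
            rw [← hy]
            ring
          have e3 := congrArg (fun z : 𝓞 E => ‖σ (z : E)‖) e2
          simp only [map_mul, map_pow, norm_mul, norm_pow, ha1, one_pow, one_mul] at e3
          rw [e3]
          have e4 : σ (((2 : 𝓞 E)) : E) = 2 := by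
            simp only [map_ofNat]
          have e5 : ‖σ (algebraMap (𝓞 E) E 2)‖ = 1 / 2 := by
            rw [← norm_two, ← e4]
          rw [e5]
          have := norm_emb_le σ y
          linarith
      rcases lt_or_gt_of_ne hij with hlt | hlt
      · exact key i j hlt he
      · exact key j i hlt he.symm
  choose x hx hx2 using h1
  refine ⟨∏ τ : E →+* ℂ_[2], x τ, ?_, fun σ hσ => ?_⟩
  · rw [hmk, map_prod]
    exact Finset.prod_eq_one fun τ _ => (hmk _).1 (hx τ)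
  · rw [← Finset.mul_prod_erase _ _ (Finset.mem_univ σ)]
    simp only [map_mul, norm_mul]
    calc ‖σ ((x σ : 𝓞 E) : E)‖ * ‖σ (((∏ τ ∈ univ.erase σ, x τ : 𝓞 E)) : E)‖ ≤
        ‖σ ((x σ : 𝓞 E) : E)‖ * 1 := by
          gcongr
          exact norm_emb_le σ _
      _ < 1 := by
        rw [mul_one]
        exact hx2 σ hσ

theorem tendsto_pow_one {u : ℂ_[2]} (hu : ‖u - 1‖ < 1) : Tendsto (fun m : ℕ => u ^ 2 ^ m) atTop (𝓝 1) := by
  set r : ℝ := max ‖u - 1‖ (1 / 2) with hr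
  have hr1 : r < 1 := max_lt hu (by norm_num)
  have hr0 : 0 ≤ r := (by norm_num : (0 : ℝ) ≤ 1 / 2).trans (le_max_right _ _)
  have h1 : ∀ m : ℕ, ‖u ^ 2 ^ m - 1‖ ≤ r ^ (m + 1) := by
    intro m
    induction m with
    | zero =>
      rw [pow_zero, pow_one, zero_add, pow_one]
      exact le_max_left ‖u - 1‖ (1 / 2)
    | succ m ih =>
      have e : u ^ 2 ^ (m + 1) - 1 = (u ^ 2 ^ m - 1) * ((u ^ 2 ^ m - 1) + 2) := by
        rw [pow_succ 2 m, pow_mul]
        ring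
      have h2 : ‖(u ^ 2 ^ m - 1) + 2‖ ≤ r := by
        refine (IsUltrametricDist.norm_add_le_max _ _).trans (max_le (ih.trans ?_) ?_)
        · exact pow_le_of_le_one hr0 hr1.le (by omega)
        · rw [norm_two]
          exact le_max_right _ _
      rw [e, norm_mul, pow_succ r (m + 1)]
      exact mul_le_mul ih h2 (norm_nonneg _) (by positivity)
  rw [tendsto_iff_norm_sub_tendsto_zero]
  refine squeeze_zero (fun m => norm_nonneg _) h1 ?_
  exact (tendsto_pow_atTop_nhds_zero_of_lt_one hr0 hr1).comp (tendsto_add_atTop_nat 1)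

theorem tendsto_pow_zero {u : ℂ_[2]} (hu : ‖u‖ < 1) : Tendsto (fun m : ℕ => u ^ 2 ^ m) atTop (𝓝 0) := by
  have h1 : Tendsto (fun m : ℕ => u ^ m) atTop (𝓝 0) := tendsto_pow_atTop_nhds_zero_of_norm_lt_one hu
  exact h1.comp (tendsto_pow_atTop_atTop_of_one_lt (by norm_num : 1 < 2))

open Classical in
/-- the idempotent -/
theorem idem (J : Ideal (𝓞 E)) : ∃ e : Pool.Agent.Y419.LC.LcpP.J E → ℚ_[2],
    ∀ σ : E →+* ℂ_[2], ∑ j, algebraMap ℚ_[2] ℂ_[2] (e j) * σ ((om E j : 𝓞 E) : E) = if Ab J σ then 1 else 0 := by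
  obtain ⟨x, hx1, hx2⟩ := exists_x J
  obtain ⟨N, hN⟩ := exists_inv (p := 2) (E := E)
  have hlim : ∀ σ : E →+* ℂ_[2], Tendsto (fun m : ℕ => σ (((x ^ 2 ^ m : 𝓞 E)) : E)) atTop
      (𝓝 (if Ab J σ then 1 else 0)) := by
    intro σ
    have e : ∀ m : ℕ, σ (((x ^ 2 ^ m : 𝓞 E)) : E) = (σ ((x : 𝓞 E) : E)) ^ 2 ^ m := by
      intro m
      simp only [map_pow]
    simp only [e]
    split_ifs with h
    · apply tendsto_pow_one
      have h1 := h _ hx1
      simp only [map_sub, map_one] at h1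
      exact h1
    · exact tendsto_pow_zero (hx2 σ h)
  have hco : ∀ j, Tendsto (fun m : ℕ => (((om E).repr (x ^ 2 ^ m) j : ℤ) : ℂ_[2])) atTop
      (𝓝 (∑ σ : E →+* ℂ_[2], (if Ab J σ then 1 else 0) * N σ j)) := by
    intro j
    have h1 : ∀ m : ℕ, (((om E).repr (x ^ 2 ^ m) j : ℤ) : ℂ_[2]) =
        ∑ σ : E →+* ℂ_[2], σ (((x ^ 2 ^ m : 𝓞 E)) : E) * N σ j := by
      intro m
      rw [hN (fun j => (((om E).repr (x ^ 2 ^ m) j : ℤ) : ℂ_[2])) j]
      refine Finset.sum_congr rfl fun σ _ => ?_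
      rw [emb_coord σ (x ^ 2 ^ m)]
    simp only [h1]
    exact tendsto_finsetSum _ fun σ _ => (hlim σ).mul_const _
  have hcl : IsClosed (Set.range (algebraMap ℚ_[2] ℂ_[2])) :=
    (algebraMap_isometry ℚ_[2] ℂ_[2]).isClosedEmbedding.isClosed_range
  have he : ∀ j, ∃ e : ℚ_[2], algebraMap ℚ_[2] ℂ_[2] e = ∑ σ : E →+* ℂ_[2], (if Ab J σ then 1 else 0) * N σ j := by
    intro j
    exact hcl.mem_of_tendsto (hco j) (Eventually.of_forall fun m =>
      ⟨(((om E).repr (x ^ 2 ^ m) j : ℤ) : ℚ_[2]), map_intCast _ _⟩)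
  choose e he using he
  refine ⟨e, fun σ => ?_⟩
  have h2 : Tendsto (fun m : ℕ => ∑ j, (((om E).repr (x ^ 2 ^ m) j : ℤ) : ℂ_[2]) * σ ((om E j : 𝓞 E) : E)) atTop
      (𝓝 (∑ j, algebraMap ℚ_[2] ℂ_[2] (e j) * σ ((om E j : 𝓞 E) : E))) := by
    refine tendsto_finsetSum _ fun j _ => ?_
    rw [he]
    exact (hco j).mul_const _
  have h3 : (fun m : ℕ => ∑ j, (((om E).repr (x ^ 2 ^ m) j : ℤ) : ℂ_[2]) * σ ((om E j : 𝓞 E) : E)) =
      fun m : ℕ => σ (((x ^ 2 ^ m : 𝓞 E)) : E) := by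
    funext m
    rw [emb_coord σ (x ^ 2 ^ m)]
  rw [h3] at h2
  exact tendsto_nhds_unique h2 (hlim σ)

/-- convergence at the places above `2` which divide `J` -/
theorem tendsto_mem (J : Ideal (𝓞 E)) (hJ : (2 : 𝓞 E) ∈ J) (y : ℕ → 𝓞 E)
    (hy : ∀ σ : E →+* ℂ_[2], Ab J σ → Tendsto (fun k => σ ((y k : 𝓞 E) : E)) atTop (𝓝 0)) (N : ℕ) :
    ∀ᶠ k in atTop, y k ∈ J ^ N := by
  classical
  obtain ⟨x, hx1, hx2⟩ := exists_x J
  obtain ⟨M, hM⟩ := exists_inv (p := 2) (E := E)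
  -- the unit
  have hunit : IsUnit (Ideal.Quotient.mk (J ^ N) x) := by
    have h1 : IsNilpotent (Ideal.Quotient.mk (J ^ N) (1 - x)) := by
      refine ⟨N, ?_⟩
      rw [← map_pow, Ideal.Quotient.eq_zero_iff_mem]
      apply Ideal.pow_mem_pow
      have : 1 - x = -(x - 1) := by ring
      rw [this]
      exact J.neg_mem hx1
    have h2 := h1.isUnit_one_sub
    rwa [map_sub, map_one, sub_sub_cancel] at h2
  set B : ℝ := ∑ σ : E →+* ℂ_[2], ∑ j, ‖M σ j‖ with hB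
  have hB0 : 0 ≤ B := Finset.sum_nonneg fun σ _ => Finset.sum_nonneg fun j _ => norm_nonneg _
  set δ : ℝ := (2 : ℝ) ^ (-N : ℤ) / (B + 1) with hδ
  have hδ0 : 0 < δ := by positivity
  obtain ⟨m, hm⟩ : ∃ m : ℕ, ∀ σ : E →+* ℂ_[2], ¬ Ab J σ → ‖σ ((x : 𝓞 E) : E)‖ ^ m ≤ δ := by
    have h1 : ∀ᶠ m : ℕ in atTop, ∀ σ : E →+* ℂ_[2], ¬ Ab J σ → ‖σ ((x : 𝓞 E) : E)‖ ^ m ≤ δ := by
      rw [Filter.eventually_all]
      intro σ
      by_cases h : Ab J σ
      · exact Eventually.of_forall fun m h' => absurd h h'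
      · have h2 := tendsto_pow_atTop_nhds_zero_of_lt_one (norm_nonneg (σ ((x : 𝓞 E) : E))) (hx2 σ h)
        exact (h2.eventually (gt_mem_nhds hδ0)).mono fun m hm _ => le_of_lt hm
    exact h1.exists
  have hev : ∀ᶠ k in atTop, ∀ σ : E →+* ℂ_[2], Ab J σ → ‖σ ((y k : 𝓞 E) : E)‖ ≤ δ := by
    rw [Filter.eventually_all]
    intro σ
    by_cases h : Ab J σ
    · have h2 := (hy σ h).norm
      rw [norm_zero] at h2
      exact (h2.eventually (gt_mem_nhds hδ0)).mono fun k hk _ => le_of_lt hk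
    · exact Eventually.of_forall fun k h' => absurd h' h
  filter_upwards [hev] with k hk
  have hw : ∀ σ : E →+* ℂ_[2], ‖σ (((x ^ m * y k : 𝓞 E)) : E)‖ ≤ δ := by
    intro σ
    have e1 : ‖σ (((x ^ m * y k : 𝓞 E)) : E)‖ = ‖σ ((x : 𝓞 E) : E)‖ ^ m * ‖σ ((y k : 𝓞 E) : E)‖ := by
      simp only [map_mul, map_pow, norm_mul, norm_pow]
    rw [e1]
    by_cases h : Ab J σ
    · calc ‖σ ((x : 𝓞 E) : E)‖ ^ m * ‖σ ((y k : 𝓞 E) : E)‖ ≤ 1 * δ := by
            apply mul_le_mul (pow_le_one₀ (norm_nonneg _) (norm_emb_le σ x)) (hk σ h) (norm_nonneg _) zero_le_one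
        _ = δ := one_mul _
    · calc ‖σ ((x : 𝓞 E) : E)‖ ^ m * ‖σ ((y k : 𝓞 E) : E)‖ ≤ δ * 1 := by
            apply mul_le_mul (hm σ h) (norm_emb_le σ (y k)) (norm_nonneg _) hδ0.le
        _ = δ := mul_one _
  have hdiv : (2 : 𝓞 E) ^ N ∣ x ^ m * y k := by
    rw [← (om E).sum_repr (x ^ m * y k)]
    refine Finset.dvd_sum fun j _ => ?_
    have h1 : ‖(((om E).repr (x ^ m * y k) j : ℤ) : ℂ_[2])‖ ≤ (2 : ℝ) ^ (-N : ℤ) := by
      rw [hM (fun j => (((om E).repr (x ^ m * y k) j : ℤ) : ℂ_[2])) j]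
      calc ‖∑ σ : E →+* ℂ_[2], (∑ i, (((om E).repr (x ^ m * y k) i : ℤ) : ℂ_[2]) *
            σ ((om E i : 𝓞 E) : E)) * M σ j‖ ≤ ∑ σ : E →+* ℂ_[2], δ * ‖M σ j‖ := by
            refine (norm_sum_le _ _).trans (Finset.sum_le_sum fun σ _ => ?_)
            rw [norm_mul, ← emb_coord σ (x ^ m * y k)]
            exact mul_le_mul_of_nonneg_right (hw σ) (norm_nonneg _)
        _ = δ * ∑ σ : E →+* ℂ_[2], ‖M σ j‖ := by rw [Finset.mul_sum]
        _ ≤ δ * B := by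
            apply mul_le_mul_of_nonneg_left _ hδ0.le
            rw [hB]
            refine Finset.sum_le_sum fun σ _ => ?_
            exact Finset.single_le_sum (f := fun j => ‖M σ j‖) (fun _ _ => norm_nonneg _) (Finset.mem_univ j)
        _ ≤ δ * (B + 1) := by
            apply mul_le_mul_of_nonneg_left _ hδ0.le
            linarith
        _ = (2 : ℝ) ^ (-N : ℤ) := by
            rw [hδ]
            field_simp
    have h2 : ‖(((om E).repr (x ^ m * y k) j : ℤ) : ℂ_[2])‖ =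
        ‖(((om E).repr (x ^ m * y k) j : ℤ) : ℚ_[2])‖ := by
      have h := norm_algebraMap' ℂ_[2] (((om E).repr (x ^ m * y k) j : ℤ) : ℚ_[2])
      rw [map_intCast] at h
      exact h
    have h3 := Padic.norm_int_le_pow_iff_dvd (p := 2) ((om E).repr (x ^ m * y k) j) N
    rw [h2] at h1
    have h4 := h3.1 (by exact_mod_cast h1)
    obtain ⟨q, hq⟩ := h4
    rw [hq, zsmul_eq_mul]
    push_cast
    rw [mul_assoc]
    exact dvd_mul_right _ _
  have hmem : x ^ m * y k ∈ J ^ N := by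
    obtain ⟨q, hq⟩ := hdiv
    rw [hq]
    exact Ideal.mul_mem_right _ _ (Ideal.pow_mem_pow hJ N)
  rw [← Ideal.Quotient.eq_zero_iff_mem, map_mul, map_pow] at hmem
  rw [← Ideal.Quotient.eq_zero_iff_mem]
  exact ((hunit.pow m).mul_right_eq_zero).1 hmem

end

end Pool.Agent.Q1.LK
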