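import Pool.Agent.Q1.LK.SA
import Pool.Agent.Q7.SG.StmA

/-!
# The `Σ`-Leopoldt conjecture for quadratic characters, `p = 2`: from the kernel of the logarithms to relations between
units of relative norm `1` (part A)
-/

set_option autoImplicit false
set_option linter.unusedSectionVars false

namespace Pool.Agent.Q1.LK

open NumberField Module Filter Topology Finset TensorProduct
open Pool.Agent.W289.SL Pool.Agent.Y419.LC.LcpP

/-- the main step: from `ℂ_2`-relations to `2`-adic relations -/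
theorem core (K H : Type) [Field K] [NumberField K] [Field H] [NumberField H] [Algebra K H]
    (I : Ideal (𝓞 K)) (h2I : (2 : 𝓞 K) ∈ I) (L : ℂ_[2] → ℂ_[2]) (hL : IsIwasawaLog 2 L) (q : ℕ)
    (θ : Fin q → (𝓞 H)ˣ) (t : ℕ) (a : Fin t → Fin q → ℂ_[2]) (ha : LinearIndependent ℂ_[2] a)
    (hrel : ∀ (j : Fin t) (σ : H →+* ℂ_[2]), Pool.Agent.Q7.SG.Over I (σ.comp (algebraMap K H)) →
      ∑ i, a j i * L (σ ((θ i : 𝓞 H) : H)) = 0) :
    ∃ b : Fin t → Fin q → ℤ_[2], LinearIndependent ℤ_[2] b ∧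
      ∀ j, Pool.Agent.Q283.LQ.Rel H (I.map (algebraMap (𝓞 K) (𝓞 H))) θ (b j) := by
  classical
  set J : Ideal (𝓞 H) := I.map (algebraMap (𝓞 K) (𝓞 H)) with hJdef
  have h2J : (2 : 𝓞 H) ∈ J := by
    have h1 := Ideal.mem_map_of_mem (algebraMap (𝓞 K) (𝓞 H)) h2I
    rwa [map_ofNat] at h1
  have hAb : ∀ σ : H →+* ℂ_[2], Ab J σ → Pool.Agent.Q7.SG.Over I (σ.comp (algebraMap K H)) := by
    intro σ hσ x hx
    exact hσ _ (Ideal.mem_map_of_mem (algebraMap (𝓞 K) (𝓞 H)) hx)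
  obtain ⟨n, hn, hnU⟩ := exists_pow_U4 H 2
  have hn' : (n : ℂ_[2]) ≠ 0 := by exact_mod_cast hn
  have hy := fun i => (mem_U4 (θ i ^ n)).1 (hnU (θ i))
  choose y hy using hy
  have hd := fun i => exists_d hL J (((θ i ^ n : (𝓞 H)ˣ)) : 𝓞 H) (y i) (by rw [← hy i]; ring)
  choose d hd using hd
  obtain ⟨N, hN⟩ := exists_inv (p := 2) (E := H)
  have hlogn : ∀ (σ : H →+* ℂ_[2]) i, L (σ (((θ i ^ n : (𝓞 H)ˣ) : 𝓞 H) : H)) =
      (n : ℂ_[2]) * L (σ ((θ i : 𝓞 H) : H)) := fun σ i => log_pow hL σ (θ i) n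
  obtain ⟨b, hb, hb2⟩ := sol_descent (k := ℚ_[2]) (l := ℂ_[2]) d a ha (by
    intro s m
    rw [hN (fun m => ∑ i, a s i * algebraMap ℚ_[2] ℂ_[2] (d i m)) m]
    refine Finset.sum_eq_zero fun σ _ => ?_
    have h3 : ∑ m, (∑ i, a s i * algebraMap ℚ_[2] ℂ_[2] (d i m)) * σ ((om H m : 𝓞 H) : H) = 0 := by
      simp only [Finset.sum_mul]
      rw [Finset.sum_comm]
      have h4 : ∀ i, ∑ m, a s i * algebraMap ℚ_[2] ℂ_[2] (d i m) * σ ((om H m : 𝓞 H) : H) =
          a s i * (if Ab J σ then L (σ (((θ i ^ n : (𝓞 H)ˣ) : 𝓞 H) : H)) else 0) := by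
        intro i
        rw [← hd i σ, Finset.mul_sum]
        refine Finset.sum_congr rfl fun m _ => ?_
        ring
      simp only [h4]
      by_cases h : Ab J σ
      · simp only [if_pos h, hlogn]
        have h5 := hrel s σ (hAb σ h)
        calc ∑ i, a s i * ((n : ℂ_[2]) * L (σ ((θ i : 𝓞 H) : H))) =
              (n : ℂ_[2]) * ∑ i, a s i * L (σ ((θ i : 𝓞 H) : H)) := by
              rw [Finset.mul_sum]
              refine Finset.sum_congr rfl fun i _ => ?_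
              ring
          _ = 0 := by rw [h5, mul_zero]
      · simp only [if_neg h, mul_zero, Finset.sum_const_zero]
    rw [h3, zero_mul])
  -- clear denominators
  obtain ⟨M, hM⟩ : ∃ M : ℕ, ∀ s i, ‖(2 : ℚ_[2]) ^ M * b s i‖ ≤ 1 := by
    have h1 : ∀ᶠ M : ℕ in atTop, ∀ s i, ‖(2 : ℚ_[2]) ^ M * b s i‖ ≤ 1 := by
      rw [Filter.eventually_all]
      intro s
      rw [Filter.eventually_all]
      intro i
      have h2 : Tendsto (fun M : ℕ => (2 : ℚ_[2]) ^ M * b s i) atTop (𝓝 0) := by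
        have h3 : ‖(2 : ℚ_[2])‖ < 1 := by
          have := Padic.norm_p_lt_one (p := 2)
          exact_mod_cast this
        have h4 := (tendsto_pow_atTop_nhds_zero_of_norm_lt_one h3).mul_const (b s i)
        rwa [zero_mul] at h4
      have h5 := h2.norm
      rw [norm_zero] at h5
      exact (h5.eventually (gt_mem_nhds one_pos)).mono fun M hM => le_of_lt hM
    exact h1.exists
  set c : Fin t → Fin q → ℤ_[2] := fun s i => ⟨(2 : ℚ_[2]) ^ M * b s i, hM s i⟩ with hc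
  have hcc : ∀ s i, ((c s i : ℤ_[2]) : ℚ_[2]) = (2 : ℚ_[2]) ^ M * b s i := fun s i => rfl
  have h20 : (2 : ℚ_[2]) ^ M ≠ 0 := pow_ne_zero _ (by norm_num)
  have hcind : LinearIndependent ℤ_[2] c := by
    rw [Fintype.linearIndependent_iff]
    intro g hg
    have h1 : ∑ s, ((g s : ℤ_[2]) : ℚ_[2]) • b s = 0 := by
      funext i
      rw [Finset.sum_apply, Pi.zero_apply]
      have h2 := congrArg (fun z : ℤ_[2] => (z : ℚ_[2])) (congrFun hg i)
      simp only [Finset.sum_apply, Pi.smul_apply, smul_eq_mul, Pi.zero_apply, PadicInt.coe_sum, PadicInt.coe_mul,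
        PadicInt.coe_zero, hcc] at h2
      have h3 : (2 : ℚ_[2]) ^ M * ∑ s, ((g s : ℤ_[2]) : ℚ_[2]) * b s i = 0 := by
        rw [Finset.mul_sum, ← h2]
        refine Finset.sum_congr rfl fun s _ => ?_
        ring
      have h4 := (mul_eq_zero.1 h3).resolve_left h20
      simpa only [Pi.smul_apply, smul_eq_mul] using h4
    have h2 := Fintype.linearIndependent_iff.1 hb _ h1
    intro s
    exact Subtype.ext (h2 s)
  have hcrel : ∀ s, Pool.Agent.Q283.LQ.Rel H J (fun i => θ i ^ n) (c s) := by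
    intro s
    apply rel_of_log hL J h2J _ (fun i => hnU (θ i))
    intro σ hσ
    have h1 : ∀ i, L (σ (((θ i ^ n : (𝓞 H)ˣ) : 𝓞 H) : H)) =
        ∑ m, algebraMap ℚ_[2] ℂ_[2] (d i m) * σ ((om H m : 𝓞 H) : H) := by
      intro i
      rw [hd i σ, if_pos hσ]
    simp only [h1, hcc]
    have h3 : ∀ i, algebraMap ℚ_[2] ℂ_[2] ((2 : ℚ_[2]) ^ M * b s i) *
        ∑ m, algebraMap ℚ_[2] ℂ_[2] (d i m) * σ ((om H m : 𝓞 H) : H) =
        ∑ m, algebraMap ℚ_[2] ℂ_[2] ((2 : ℚ_[2]) ^ M * (b s i * d i m)) * σ ((om H m : 𝓞 H) : H) := by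
      intro i
      rw [Finset.mul_sum]
      refine Finset.sum_congr rfl fun m _ => ?_
      rw [← mul_assoc, ← map_mul, mul_assoc]
    simp only [h3]
    rw [Finset.sum_comm]
    refine Finset.sum_eq_zero fun m _ => ?_
    rw [← Finset.sum_mul, ← map_sum, ← Finset.mul_sum, hb2 s m, mul_zero, map_zero, zero_mul]
  refine ⟨fun s => (n : ℤ_[2]) • c s, ?_, fun s => ?_⟩
  · have hn2 : (n : ℤ_[2]) ≠ 0 := by exact_mod_cast hn
    rw [Fintype.linearIndependent_iff] at hcind ⊢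
    intro g hg s
    have h1 := hcind (fun s => g s * (n : ℤ_[2])) (by
      rw [← hg]
      refine Finset.sum_congr rfl fun s _ => ?_
      rw [mul_smul]) s
    exact (mul_eq_zero.1 h1).resolve_right hn2
  · obtain ⟨m, hm, hm2⟩ := hcrel s
    refine ⟨fun k i => (n : ℤ) * m k i, fun i => ?_, fun N => ?_⟩
    · have h1 := (hm i).const_mul (n : ℤ_[2])
      refine h1.congr fun k => ?_
      push_cast
      rfl
    · filter_upwards [hm2 N] with k hk
      have h2 : ∏ i, θ i ^ ((n : ℤ) * m k i) = ∏ i, (θ i ^ n) ^ m k i := by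
        refine Finset.prod_congr rfl fun i _ => ?_
        rw [zpow_mul, zpow_natCast]
      rw [h2]
      exact hk


section

variable {K H : Type} [Field K] [NumberField K] [Field H] [NumberField H] [Algebra K H]

/-- the nontrivial automorphism -/
theorem exists_tau (hdeg : finrank K H = 2) {χ : (H ≃ₐ[K] H) →* ℂ_[2]ˣ} (hχ : χ ≠ 1) :
    ∃ τ : H ≃ₐ[K] H, (∀ x, algebraMap K H (Algebra.norm K x) = x * τ x) ∧ ((χ τ : ℂ_[2]ˣ) : ℂ_[2]) = -1 := by
  classical
  have hq : Algebra.IsQuadraticExtension K H := ⟨hdeg⟩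
  have hG : IsGalois K H := inferInstance
  have hc : Fintype.card (H ≃ₐ[K] H) = 2 := by
    rw [← Nat.card_eq_fintype_card, IsGalois.card_aut_eq_finrank, hdeg]
  obtain ⟨τ, hτ⟩ : ∃ τ : H ≃ₐ[K] H, χ τ ≠ 1 := by
    by_contra hcon
    push Not at hcon
    exact hχ (MonoidHom.ext hcon)
  have hτ1 : τ ≠ 1 := by
    rintro rfl
    exact hτ (map_one χ)
  have huniv : (univ : Finset (H ≃ₐ[K] H)) = {1, τ} := by
    symm
    apply Finset.eq_univ_of_card
    rw [Finset.card_pair (Ne.symm hτ1), hc]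
  refine ⟨τ, fun x => ?_, ?_⟩
  · rw [Algebra.norm_eq_prod_automorphisms]
    have : ∏ σ : H ≃ₐ[K] H, σ x = ∏ σ ∈ ({1, τ} : Finset (H ≃ₐ[K] H)), σ x := by rw [← huniv]
    rw [this, Finset.prod_pair (Ne.symm hτ1)]
    rfl
  · have h1 : τ ^ 2 = 1 := by
      have := pow_card_eq_one (x := τ)
      rwa [hc] at this
    have h2 : ((χ τ : ℂ_[2]ˣ) : ℂ_[2]) ^ 2 = 1 := by
      rw [← Units.val_pow_eq_pow_val, ← map_pow, h1, map_one, Units.val_one]
    rw [sq] at h2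
    rcases mul_self_eq_one_iff.1 h2 with h3 | h3
    · exact absurd (Units.ext h3) hτ
    · exact h3

/-- the combinations of the units `θ` -/
noncomputable def comb {q : ℕ} (θ : Fin q → (𝓞 H)ˣ) : (Fin q → ℂ_[2]) →ₗ[ℂ_[2]] UM 2 H where
  toFun A := ∑ j, A j ⊗ₜ[ℤ] Additive.ofMul (θ j)
  map_add' A B := by
    rw [← Finset.sum_add_distrib]
    refine Finset.sum_congr rfl fun j _ => ?_
    rw [Pi.add_apply, TensorProduct.add_tmul]
  map_smul' c A := by
    rw [RingHom.id_apply, Finset.smul_sum]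
    refine Finset.sum_congr rfl fun j _ => ?_
    rw [Pi.smul_apply, TensorProduct.smul_tmul']

theorem comb_apply {q : ℕ} (θ : Fin q → (𝓞 H)ˣ) (A : Fin q → ℂ_[2]) :
    comb θ A = ∑ j, A j ⊗ₜ[ℤ] Additive.ofMul (θ j) := rfl

open Pool.Agent.Q14.LQS in
theorem exists_comb {q : ℕ} (θ : Fin q → (𝓞 H)ˣ) {h : ℕ} (hh0 : 0 < h)
    (hspan : ∀ η ∈ (nU K : (𝓞 H)ˣ →* (𝓞 K)ˣ).ker, ∃ c : Fin q → ℤ, η ^ h = (∏ i, θ i ^ c i) ^ h)
    (τ : H ≃ₐ[K] H) (z : UM 2 H) : ∃ A : Fin q → ℂ_[2], z - actLin 2 (τ : H →+* H) z = comb θ A := by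
  induction z using TensorProduct.induction_on with
  | zero => exact ⟨0, by simp⟩
  | add x y hx hy =>
    obtain ⟨a, ha⟩ := hx
    obtain ⟨b, hb⟩ := hy
    refine ⟨a + b, ?_⟩
    rw [map_add, map_add, ← ha, ← hb]
    abel
  | tmul c u =>
    set v : (𝓞 H)ˣ := Additive.toMul u with hv
    set w : (𝓞 H)ˣ := v / sU τ v with hw
    have hwk : w ∈ (nU K : (𝓞 H)ˣ →* (𝓞 K)ˣ).ker := by
      rw [MonoidHom.mem_ker, hw, map_div, div_eq_one]
      apply Units.ext
      apply RingOfIntegers.ext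
      rw [nU_coe, nU_coe, sU_coe, Algebra.norm_eq_of_algEquiv]
    obtain ⟨e, he⟩ := hspan w hwk
    refine ⟨fun j => c * (e j : ℂ_[2]), ?_⟩
    have h1 : actLin 2 (τ : H →+* H) (c ⊗ₜ[ℤ] u) = c ⊗ₜ[ℤ] Additive.ofMul (sU τ v) := rfl
    have h2 : u = Additive.ofMul v := rfl
    have h3 : Additive.ofMul w = Additive.ofMul (w / ∏ i, θ i ^ e i) + ∑ i, e i • Additive.ofMul (θ i) := by
      have h4 : ∑ i, e i • Additive.ofMul (θ i) = Additive.ofMul (∏ i, θ i ^ e i) := by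
        rw [ofMul_prod]
        exact Finset.sum_congr rfl fun i _ => (ofMul_zpow _ _).symm
      rw [h4, ← ofMul_mul, div_mul_cancel]
    have h5 : h • Additive.ofMul (w / ∏ i, θ i ^ e i) = 0 := by
      rw [← ofMul_pow, div_pow, he, div_self', ofMul_one]
    rw [h1, comb_apply]
    have h6 : c ⊗ₜ[ℤ] u - (c ⊗ₜ[ℤ] Additive.ofMul (sU τ v) : UM 2 H) = c ⊗ₜ[ℤ] Additive.ofMul w := by
      rw [← TensorProduct.tmul_sub, h2, ← ofMul_div]
    rw [h6, h3, TensorProduct.tmul_add, tmul_torsion c _ h hh0.ne' h5, zero_add, TensorProduct.tmul_sum]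
    refine Finset.sum_congr rfl fun j _ => ?_
    rw [tmul_zsmul]

end

/-- From the kernel of the logarithms to relations -/
theorem t_SgA : Pool.Agent.Q7.SG.S_SgA := by
  classical
  intro K H _ _ _ _ _ hdeg I h2I S hS L hL χ hχ t x hx hact hlog
  obtain ⟨τ, hτN, hχτ⟩ := exists_tau hdeg hχ
  obtain ⟨p, θ, h, hh0, hθE, hθ, hspan⟩ := Pool.Agent.Q14.LQS.unit_basis (K := H)
    (Pool.Agent.Q14.LQS.nU K : (𝓞 H)ˣ →* (𝓞 K)ˣ).ker
  have hA := fun i => exists_comb θ hh0 hspan τ (x i)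
  choose A hA using hA
  have hxA : ∀ i, x i = comb θ ((2 : ℂ_[2])⁻¹ • A i) := by
    intro i
    have h1 := hA i
    rw [hact i τ, hχτ] at h1
    have h2 : (2 : ℂ_[2]) • x i = comb θ (A i) := by
      rw [← h1, two_smul, neg_smul, one_smul, sub_neg_eq_add]
    rw [map_smul, ← h2, smul_smul, inv_mul_cancel₀ (by norm_num), one_smul]
  have hind : LinearIndependent ℂ_[2] (fun i => (2 : ℂ_[2])⁻¹ • A i) := by
    apply LinearIndependent.of_comp (comb θ)
    have : (comb θ) ∘ (fun i => (2 : ℂ_[2])⁻¹ • A i) = x := by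
      funext i
      exact (hxA i).symm
    rw [this]
    exact hx
  obtain ⟨b, hb, hb2⟩ := core K H I h2I L hL p θ t _ hind (by
    intro i σ hσ
    have h1 := hlog i σ ((hS _).2 hσ)
    rw [hxA i, comb_apply, map_sum] at h1
    exact h1)
  exact ⟨p, θ, h, hh0, fun i => Pool.Agent.Q14.LQS.nU_eq_one.1 (hθE i), hθ,
    fun η hη => hspan η (Pool.Agent.Q14.LQS.nU_eq_one.2 hη), b, hb, hb2⟩

end Pool.Agent.Q1.LK
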