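import Mathlib

/-!
# Project LK: symmetric matrices over `F_2` with prescribed values at few vectors
-/

set_option autoImplicit false

namespace Pool.Agent.Q1.LK

open Finset Matrix

variable {n : ℕ}

/-- symmetric matrices over `F_2` -/
def Sy (n : ℕ) : Finset (Matrix (Fin n) (Fin n) (ZMod 2)) := univ.filter fun S => Sᵀ = S

theorem mem_Sy {S : Matrix (Fin n) (Fin n) (ZMod 2)} : S ∈ Sy n ↔ Sᵀ = S := by
  rw [Sy, mem_filter]
  exact ⟨fun h => h.2, fun h => ⟨mem_univ _, h⟩⟩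

theorem zmod2_add_self (a : ZMod 2) : a + a = 0 := CharTwo.add_self_eq_zero a

theorem pi_add_self {ι : Type*} (a : ι → ZMod 2) : a + a = 0 := by
  funext i
  exact zmod2_add_self _

theorem dot_symm {S : Matrix (Fin n) (Fin n) (ZMod 2)} (h : Sᵀ = S) (x y : Fin n → ZMod 2) :
    x ⬝ᵥ (S *ᵥ y) = y ⬝ᵥ (S *ᵥ x) := by
  rw [dotProduct_mulVec, ← mulVec_transpose, h, dotProduct_comm]

/-- the symmetric matrix `w tᵀ + t wᵀ + (w ⬝ y) t tᵀ` -/
theorem exists_shift {ι : Type*} (y : ι → Fin n → ZMod 2) (y' t w : Fin n → ZMod 2)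
    (ht : ∀ a, t ⬝ᵥ y a = 0) (ht' : t ⬝ᵥ y' = 1) (hw : ∀ a, y a ⬝ᵥ w = 0) :
    ∃ S : Matrix (Fin n) (Fin n) (ZMod 2), Sᵀ = S ∧ (∀ a, S *ᵥ y a = 0) ∧ S *ᵥ y' = w := by
  refine ⟨vecMulVec w t + vecMulVec t w + (w ⬝ᵥ y') • vecMulVec t t, ?_, ?_, ?_⟩
  · rw [transpose_add, transpose_add, transpose_smul, transpose_vecMulVec, transpose_vecMulVec,
      transpose_vecMulVec]
    congr 1
    exact add_comm _ _
  · intro a
    have h1 : w ⬝ᵥ y a = 0 := by rw [dotProduct_comm]; exact hw a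
    rw [add_mulVec, add_mulVec, smul_mulVec, vecMulVec_mulVec, vecMulVec_mulVec, vecMulVec_mulVec,
      ht a, h1]
    simp
  · rw [add_mulVec, add_mulVec, smul_mulVec, vecMulVec_mulVec, vecMulVec_mulVec, vecMulVec_mulVec,
      ht']
    funext i
    simp only [Pi.add_apply, Pi.smul_apply, MulOpposite.op_one, one_smul, smul_eq_mul]
    have h1 := zmod2_add_self (w ⬝ᵥ y' * t i)
    have h2 : (MulOpposite.op (w ⬝ᵥ y') • t i) = w ⬝ᵥ y' * t i := by
      rw [MulOpposite.smul_eq_mul_unop, MulOpposite.unop_op, mul_comm]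
    rw [h2, add_assoc, h1, add_zero]

/-- the symmetric matrices with `S (y a) = z a` -/
def Cs {ι : Type*} [Fintype ι] (y z : ι → Fin n → ZMod 2) :
    Finset (Matrix (Fin n) (Fin n) (ZMod 2)) := by
  classical exact univ.filter fun S => Sᵀ = S ∧ ∀ a, S *ᵥ y a = z a

theorem mem_Cs {ι : Type*} [Fintype ι] {y z : ι → Fin n → ZMod 2}
    {S : Matrix (Fin n) (Fin n) (ZMod 2)} : S ∈ Cs y z ↔ Sᵀ = S ∧ ∀ a, S *ᵥ y a = z a := by
  unfold Cs
  rw [mem_filter]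
  exact ⟨fun h => h.2, fun h => ⟨mem_univ _, h⟩⟩

/-- one more condition -/
theorem step {ι : Type*} [Fintype ι] (y z : ι → Fin n → ZMod 2) (y' z' t : Fin n → ZMod 2)
    (ht : ∀ a, t ⬝ᵥ y a = 0) (ht' : t ⬝ᵥ y' = 1) (hc : ∀ a, y a ⬝ᵥ z' = y' ⬝ᵥ z a)
    (W : Finset (Fin n → ZMod 2)) (hWm : ∀ w, w ∈ W ↔ ∀ a, y a ⬝ᵥ w = y' ⬝ᵥ z a) :
    ((Cs y z).filter fun S => S *ᵥ y' = z').card * W.card = (Cs y z).card := by
  have hmap : ∀ S ∈ Cs y z, S *ᵥ y' ∈ W := by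
    intro S hS
    rw [mem_Cs] at hS
    rw [hWm]
    intro a
    rw [dot_symm hS.1, hS.2 a]
  have hfib : ∀ w ∈ W, ((Cs y z).filter fun S => S *ᵥ y' = w).card =
      ((Cs y z).filter fun S => S *ᵥ y' = z').card := by
    intro w hw
    rw [hWm] at hw
    obtain ⟨T, hT1, hT2, hT3⟩ := exists_shift y y' t (z' - w) ht ht' (by
      intro a
      rw [dotProduct_sub, hc a, hw a, sub_self])
    refine card_bij (fun S _ => S + T) (fun S hS => ?_) (fun S _ S' _ h => add_right_cancel h) (fun S hS => ?_)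
    · rw [mem_filter, mem_Cs] at hS ⊢
      refine ⟨⟨by rw [transpose_add, hS.1.1, hT1], fun a => by rw [add_mulVec, hT2 a, add_zero, hS.1.2 a]⟩, ?_⟩
      rw [add_mulVec, hT3, hS.2]
      abel
    · rw [mem_filter, mem_Cs] at hS
      refine ⟨S - T, ?_, sub_add_cancel _ _⟩
      rw [mem_filter, mem_Cs]
      refine ⟨⟨by rw [transpose_sub, hS.1.1, hT1], fun a => by rw [sub_mulVec, hT2 a, sub_zero, hS.1.2 a]⟩, ?_⟩
      rw [sub_mulVec, hT3, hS.2]
      abel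
  rw [card_eq_sum_card_fiberwise (s := Cs y z) (f := fun S => S *ᵥ y') (t := W) (fun S hS => hmap S hS)]
  rw [sum_congr rfl hfib, sum_const, smul_eq_mul, mul_comm]

/-- functionals are scalar products -/
theorem exists_dot (W : Submodule (ZMod 2) (Fin n → ZMod 2)) (x : Fin n → ZMod 2) (hx : x ∉ W) :
    ∃ t : Fin n → ZMod 2, (∀ w ∈ W, t ⬝ᵥ w = 0) ∧ t ⬝ᵥ x = 1 := by
  obtain ⟨f, hf1, hf2⟩ := Submodule.exists_le_ker_of_notMem hx
  have key : ∀ w : Fin n → ZMod 2, (fun i => f (fun j => if i = j then 1 else 0)) ⬝ᵥ w = f w := by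
    intro w
    rw [LinearMap.pi_apply_eq_sum_univ f w]
    unfold dotProduct
    refine sum_congr rfl fun i _ => ?_
    rw [smul_eq_mul, mul_comm]
  refine ⟨fun i => f (fun j => if i = j then 1 else 0), ?_, ?_⟩
  · intro w hw
    rw [key]
    exact LinearMap.mem_ker.1 (hf2 hw)
  · rw [key]
    have h2 : ∀ a : ZMod 2, a ≠ 0 → a = 1 := by decide
    exact h2 _ hf1

/-- the number of the solutions of independent linear equations -/
theorem card_dot1 (y : Fin n → ZMod 2) (hy : y ≠ 0) (c : ZMod 2) :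
    ((univ : Finset (Fin n → ZMod 2)).filter fun w => y ⬝ᵥ w = c).card * 2 = 2 ^ n := by
  classical
  obtain ⟨t, -, ht⟩ := exists_dot ⊥ y (by rwa [Submodule.mem_bot])
  have h1 : ∀ c c' : ZMod 2, ((univ : Finset (Fin n → ZMod 2)).filter fun w => y ⬝ᵥ w = c).card =
      ((univ : Finset (Fin n → ZMod 2)).filter fun w => y ⬝ᵥ w = c').card := by
    intro c c'
    refine card_bij (fun w _ => w + (c' - c) • t) (fun w hw => ?_) (fun S _ S' _ h => add_right_cancel h)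
      fun w hw => ?_
    · rw [mem_filter] at hw ⊢
      refine ⟨mem_univ _, ?_⟩
      rw [dotProduct_add, dotProduct_smul, hw.2, dotProduct_comm y t, ht, smul_eq_mul]
      ring
    · rw [mem_filter] at hw
      refine ⟨w - (c' - c) • t, ?_, sub_add_cancel _ _⟩
      rw [mem_filter]
      refine ⟨mem_univ _, ?_⟩
      rw [dotProduct_sub, dotProduct_smul, hw.2, dotProduct_comm y t, ht, smul_eq_mul]
      ring
  have h2 := card_eq_sum_card_fiberwise (s := (univ : Finset (Fin n → ZMod 2)))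
    (f := fun w => y ⬝ᵥ w) (t := univ) (fun _ _ => mem_univ _)
  rw [sum_congr rfl (fun c' _ => h1 c' c), sum_const, smul_eq_mul, card_univ, card_univ,
    Fintype.card_fun, ZMod.card, Fintype.card_fin] at h2
  rw [h2, mul_comm]

theorem card_dot2 (y1 y2 : Fin n → ZMod 2) (h1 : y1 ≠ 0) (h2 : y2 ≠ 0) (h12 : y1 ≠ y2) (c1 c2 : ZMod 2) :
    ((univ : Finset (Fin n → ZMod 2)).filter fun w => y1 ⬝ᵥ w = c1 ∧ y2 ⬝ᵥ w = c2).card * 4 = 2 ^ n := by
  classical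
  have hsp : y2 ∉ Submodule.span (ZMod 2) {y1} := by
    intro h
    obtain ⟨a, ha⟩ := Submodule.mem_span_singleton.1 h
    have h3 : ∀ a : ZMod 2, a = 0 ∨ a = 1 := by decide
    rcases h3 a with rfl | rfl
    · rw [zero_smul] at ha; exact h2 ha.symm
    · rw [one_smul] at ha; exact h12 ha
  obtain ⟨t, ht1, ht2⟩ := exists_dot _ y2 hsp
  have ht1' := ht1 y1 (Submodule.mem_span_singleton_self y1)
  have h4 := card_dot1 y1 h1 c1
  have h5 : ∀ c c' : ZMod 2, ((univ : Finset (Fin n → ZMod 2)).filter fun w => y1 ⬝ᵥ w = c1 ∧ y2 ⬝ᵥ w = c).card =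
      ((univ : Finset (Fin n → ZMod 2)).filter fun w => y1 ⬝ᵥ w = c1 ∧ y2 ⬝ᵥ w = c').card := by
    intro c c'
    refine card_bij (fun w _ => w + (c' - c) • t) (fun w hw => ?_) (fun S _ S' _ h => add_right_cancel h)
      fun w hw => ?_
    · rw [mem_filter] at hw ⊢
      refine ⟨mem_univ _, ?_, ?_⟩
      · rw [dotProduct_add, dotProduct_smul, hw.2.1, dotProduct_comm y1 t, ht1', smul_zero, add_zero]
      · rw [dotProduct_add, dotProduct_smul, hw.2.2, dotProduct_comm y2 t, ht2, smul_eq_mul]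
        ring
    · rw [mem_filter] at hw
      refine ⟨w - (c' - c) • t, ?_, sub_add_cancel _ _⟩
      rw [mem_filter]
      refine ⟨mem_univ _, ?_, ?_⟩
      · rw [dotProduct_sub, dotProduct_smul, hw.2.1, dotProduct_comm y1 t, ht1', smul_zero, sub_zero]
      · rw [dotProduct_sub, dotProduct_smul, hw.2.2, dotProduct_comm y2 t, ht2, smul_eq_mul]
        ring
  have h6 := card_eq_sum_card_fiberwise (s := (univ : Finset (Fin n → ZMod 2)).filter fun w => y1 ⬝ᵥ w = c1)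
    (f := fun w => y2 ⬝ᵥ w) (t := univ) (fun _ _ => mem_univ _)
  simp only [filter_filter] at h6
  rw [sum_congr rfl (fun c' _ => h5 c' c2), sum_const, smul_eq_mul, card_univ, ZMod.card] at h6
  rw [h6] at h4
  rw [← h4]
  ring

/-- independence of three vectors over `F_2` -/
def Ind2 {M : Type*} [AddCommGroup M] (x1 x2 : M) : Prop := x1 ≠ 0 ∧ x2 ≠ 0 ∧ x1 ≠ x2

def Ind3 {M : Type*} [AddCommGroup M] (x1 x2 x3 : M) : Prop :=
  Ind2 x1 x2 ∧ x3 ≠ 0 ∧ x3 ≠ x1 ∧ x3 ≠ x2 ∧ x3 ≠ x1 + x2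

theorem count1 (y z : Fin n → ZMod 2) (hy : y ≠ 0) :
    ((Sy n).filter fun S => S *ᵥ y = z).card * 2 ^ n = (Sy n).card := by
  obtain ⟨t, -, ht⟩ := exists_dot ⊥ y (by rwa [Submodule.mem_bot])
  have h1 := step (ι := Fin 0) (fun a => a.elim0) (fun a => a.elim0) y z t (fun a => a.elim0) ht
    (fun a => a.elim0) univ (fun w => ⟨fun _ a => a.elim0, fun _ => mem_univ _⟩)
  have h2 : Cs (ι := Fin 0) (n := n) (fun a => a.elim0) (fun a => a.elim0) = Sy n := by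
    ext S
    rw [mem_Cs, mem_Sy]
    exact ⟨fun h => h.1, fun h => ⟨h, fun a => a.elim0⟩⟩
  rw [h2, card_univ, Fintype.card_fun, ZMod.card, Fintype.card_fin] at h1
  exact h1

theorem count2 (y1 y2 z1 z2 : Fin n → ZMod 2) (h : Ind2 y1 y2) (hc : y1 ⬝ᵥ z2 = y2 ⬝ᵥ z1) :
    ((Sy n).filter fun S => S *ᵥ y1 = z1 ∧ S *ᵥ y2 = z2).card * (2 ^ n * 2 ^ n) = (Sy n).card * 2 := by
  obtain ⟨h1, h2, h12⟩ := h
  have hsp : y2 ∉ Submodule.span (ZMod 2) {y1} := by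
    intro h
    obtain ⟨a, ha⟩ := Submodule.mem_span_singleton.1 h
    have h3 : ∀ a : ZMod 2, a = 0 ∨ a = 1 := by decide
    rcases h3 a with rfl | rfl
    · rw [zero_smul] at ha; exact h2 ha.symm
    · rw [one_smul] at ha; exact h12 ha
  obtain ⟨t, ht1, ht2⟩ := exists_dot _ y2 hsp
  have ht1' := ht1 y1 (Submodule.mem_span_singleton_self y1)
  have h3 := step (ι := Unit) (fun _ => y1) (fun _ => z1) y2 z2 t (fun _ => ht1') ht2 (fun _ => hc)
    (univ.filter fun w => y1 ⬝ᵥ w = y2 ⬝ᵥ z1) (fun w => by rw [mem_filter]; simp)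
  have h4 : Cs (ι := Unit) (n := n) (fun _ => y1) (fun _ => z1) = (Sy n).filter fun S => S *ᵥ y1 = z1 := by
    ext S
    rw [mem_Cs, mem_filter, mem_Sy]
    exact ⟨fun h => ⟨h.1, h.2 ()⟩, fun h => ⟨h.1, fun _ => h.2⟩⟩
  have h5 := card_dot1 y1 h1 (y2 ⬝ᵥ z1)
  have h6 := count1 y1 z1 h1
  rw [h4, filter_filter] at h3
  obtain ⟨N, hN⟩ : ∃ N, N = ((univ : Finset (Fin n → ZMod 2)).filter fun w => y1 ⬝ᵥ w = y2 ⬝ᵥ z1).card :=
    ⟨_, rfl⟩
  rw [← hN] at h3 h5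
  rw [← h6, ← h3, ← h5]
  ring

theorem count3 (y1 y2 y3 z1 z2 z3 : Fin n → ZMod 2) (h : Ind3 y1 y2 y3) (hc : y1 ⬝ᵥ z2 = y2 ⬝ᵥ z1)
    (hc1 : y1 ⬝ᵥ z3 = y3 ⬝ᵥ z1) (hc2 : y2 ⬝ᵥ z3 = y3 ⬝ᵥ z2) :
    ((Sy n).filter fun S => S *ᵥ y1 = z1 ∧ S *ᵥ y2 = z2 ∧ S *ᵥ y3 = z3).card *
      (2 ^ n * 2 ^ n * 2 ^ n) = (Sy n).card * 8 := by
  obtain ⟨h12, h3, h31, h32, h312⟩ := h
  have hsp : y3 ∉ Submodule.span (ZMod 2) {y1, y2} := by
    intro h
    obtain ⟨a, b, hab⟩ := Submodule.mem_span_pair.1 h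
    have h4 : ∀ a : ZMod 2, a = 0 ∨ a = 1 := by decide
    rcases h4 a with rfl | rfl <;> rcases h4 b with rfl | rfl
    · rw [zero_smul, zero_smul, add_zero] at hab; exact h3 hab.symm
    · rw [zero_smul, one_smul, zero_add] at hab; exact h32 hab.symm
    · rw [zero_smul, one_smul, add_zero] at hab; exact h31 hab.symm
    · rw [one_smul, one_smul] at hab; exact h312 hab.symm
  obtain ⟨t, ht1, ht2⟩ := exists_dot _ y3 hsp
  have hta := ht1 y1 (Submodule.subset_span (by simp))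
  have htb := ht1 y2 (Submodule.subset_span (by simp))
  have h5 := step (ι := Bool) (fun a => if a then y1 else y2) (fun a => if a then z1 else z2) y3 z3 t
    (fun a => by cases a <;> simp [hta, htb]) ht2 (fun a => by cases a <;> simp [hc1, hc2])
    (univ.filter fun w => y1 ⬝ᵥ w = y3 ⬝ᵥ z1 ∧ y2 ⬝ᵥ w = y3 ⬝ᵥ z2) (fun w => by
      rw [mem_filter]
      constructor
      · rintro ⟨-, h⟩ a
        cases a <;> simp [h.1, h.2]
      · intro h
        exact ⟨mem_univ _, by simpa using h true, by simpa using h false⟩)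
  have h6 : Cs (ι := Bool) (n := n) (fun a => if a then y1 else y2) (fun a => if a then z1 else z2) =
      (Sy n).filter fun S => S *ᵥ y1 = z1 ∧ S *ᵥ y2 = z2 := by
    ext S
    rw [mem_Cs, mem_filter, mem_Sy]
    exact ⟨fun h => ⟨h.1, by simpa using h.2 true, by simpa using h.2 false⟩,
      fun h => ⟨h.1, fun a => by cases a <;> simp [h.2.1, h.2.2]⟩⟩
  have h7 := card_dot2 y1 y2 h12.1 h12.2.1 h12.2.2 (y3 ⬝ᵥ z1) (y3 ⬝ᵥ z2)
  obtain ⟨N, hN⟩ : ∃ N, N = ((univ : Finset (Fin n → ZMod 2)).filter fun w =>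
    y1 ⬝ᵥ w = y3 ⬝ᵥ z1 ∧ y2 ⬝ᵥ w = y3 ⬝ᵥ z2).card := ⟨_, rfl⟩
  rw [← hN] at h5 h7
  have h8 := count2 y1 y2 z1 z2 h12 hc
  rw [h6, filter_filter] at h5
  have h9 : ((Sy n).filter fun S => (S *ᵥ y1 = z1 ∧ S *ᵥ y2 = z2) ∧ S *ᵥ y3 = z3) =
      (Sy n).filter fun S => S *ᵥ y1 = z1 ∧ S *ᵥ y2 = z2 ∧ S *ᵥ y3 = z3 := by
    ext S
    rw [mem_filter, mem_filter]
    tauto
  rw [h9] at h5
  have h10 : (Sy n).card * 8 = ((Sy n).card * 2) * 4 := by ring
  rw [h10, ← h8, ← h5]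
  rw [← h7]
  ring

end Pool.Agent.Q1.LK
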